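import Mathlib

set_option autoImplicit false

/-! # Bounds -/

namespace Pool.Agent.X4.VS

theorem cube_root (k : ℕ) : ∃ m : ℕ, m ^ 3 ≤ k ∧ k < (m + 1) ^ 3 := by
  induction k with
  | zero => exact ⟨0, by norm_num, by norm_num⟩
  | succ k ih =>
    obtain ⟨m, h1, h2⟩ := ih
    by_cases h : k + 1 < (m + 1) ^ 3
    · exact ⟨m, by omega, h⟩
    · refine ⟨m + 1, by omega, ?_⟩
      have h3 : (m + 1) ^ 3 < (m + 1 + 1) ^ 3 := Nat.pow_lt_pow_left (by omega) (by norm_num)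
      omega

theorem sq_le_of {y c : ℝ} (hc : 0 ≤ c) (h : y ^ 2 ≤ c ^ 2) : |y| ≤ c := by
  rw [← abs_of_nonneg hc]
  exact sq_le_sq.1 h

/-- the real number is determined by the integers -/
theorem x_unique {p q : ℤ} {x r x' r' : ℝ} (hx : 5 / 4 < x) (hr : x * r ^ 2 ≤ 1)
    (hq : (q : ℝ) = x + 2 * r) (hp : (p : ℝ) = 1 / x + 2 * (x * r)) (hx' : 5 / 4 < x')
    (hq' : (q : ℝ) = x' + 2 * r') (hp' : (p : ℝ) = 1 / x' + 2 * (x' * r')) : x = x' := by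
  have hx0 : 0 < x := by linarith
  have hx0' : 0 < x' := by linarith
  obtain ⟨y, hy⟩ : ∃ y, y = 1 / x := ⟨_, rfl⟩
  have hxy : x * y = 1 := by rw [hy]; field_simp
  have hy0 : 0 < y := by rw [hy]; positivity
  have e1 : x' * (p : ℝ) = 1 + 2 * (x' ^ 2 * r') := by
    rw [hp']
    have : x' * (1 / x') = 1 := by field_simp
    linear_combination this
  have e2 : 2 * r' = x + 2 * r - x' := by linarith
  have e3 : (p : ℝ) = y + 2 * (x * r) := by rw [hp, hy]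
  have e4 : (x' - x) * (x' ^ 2 - 2 * r * x' + y) = 0 := by
    have h1 : x' * (y + 2 * (x * r)) = 1 + x' ^ 2 * (x + 2 * r - x') := by
      rw [← e3, e1, ← e2]
      ring
    linear_combination h1 - hxy
  rcases mul_eq_zero.1 e4 with h | h
  · linarith
  · exfalso
    have hr1 : r ^ 2 ≤ y := by
      have h1 : y * (x * r ^ 2) ≤ y * 1 := mul_le_mul_of_nonneg_left hr hy0.le
      have h2 : y * (x * r ^ 2) = r ^ 2 := by linear_combination r ^ 2 * hxy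
      linarith
    have hy1 : y < 1 := by
      by_contra hc
      push Not at hc
      have : 5 / 4 * 1 ≤ x * y := mul_le_mul hx.le hc (by norm_num) hx0.le
      linarith
    have h2 : (x' - r) ^ 2 = r ^ 2 - y := by linear_combination h
    have h3 : (x' - r) ^ 2 ≤ 0 := by linarith
    have h4 : x' - r = 0 := by
      have := sq_nonneg (x' - r)
      exact pow_eq_zero_iff (two_ne_zero) |>.1 (le_antisymm h3 this)
    have h5 : r = x' := by linarith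
    rw [h5] at hr1
    have h6 : (1 : ℝ) ≤ x' ^ 2 := one_le_pow₀ (by linarith)
    linarith

theorem p_bound {X R : ℝ} {p c : ℤ} (hX : 5 / 4 < X) (hR : X * R ^ 2 ≤ 1)
    (hp : (p : ℝ) = 1 / X + 2 * (X * R)) (hc0 : 0 ≤ c) (hc : 4 * X ≤ (c : ℝ) ^ 2) :
    -c ≤ p ∧ p ≤ c := by
  have hX0 : 0 < X := by linarith
  have hinv0 : 0 < 1 / X := by positivity
  have hinv1 : 1 / X < 1 := by
    rw [div_lt_one hX0]
    linarith
  have hc0R : (0 : ℝ) ≤ c := by exact_mod_cast hc0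
  have hXR : (X * R) ^ 2 ≤ X := by
    have h1 : X * (X * R ^ 2) ≤ X * 1 := mul_le_mul_of_nonneg_left hR hX0.le
    calc (X * R) ^ 2 = X * (X * R ^ 2) := by ring
      _ ≤ X * 1 := h1
      _ = X := mul_one X
  have h1 : |2 * (X * R)| ≤ c := sq_le_of hc0R (by
    calc (2 * (X * R)) ^ 2 = 4 * (X * R) ^ 2 := by ring
      _ ≤ 4 * X := by linarith
      _ ≤ (c : ℝ) ^ 2 := hc)
  obtain ⟨h2, h3⟩ := abs_le.1 h1
  have h4 : (p : ℝ) < c + 1 := by rw [hp]; linarith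
  have h5 : -(c : ℝ) < p := by rw [hp]; linarith
  have h6 : p < c + 1 := by exact_mod_cast h4
  have h7 : -c < p := by exact_mod_cast h5
  exact ⟨by omega, by omega⟩

theorem r_sq_le {X R c : ℝ} (hX : c < X) (hc : 0 < c) (hR : X * R ^ 2 ≤ 1) : c * R ^ 2 ≤ 1 := by
  have h1 : c * R ^ 2 ≤ X * R ^ 2 := mul_le_mul_of_nonneg_right hX.le (sq_nonneg R)
  linarith

theorem q_bound {X R : ℝ} {q c : ℤ} (hc : 100 ≤ c) (hR : X * R ^ 2 ≤ 1)
    (hq : (q : ℝ) = X + 2 * R) (hc1 : (c : ℝ) - 1 ≤ X) (hc2 : X < c + 1) :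
    c - 1 ≤ q ∧ q ≤ c + 1 := by
  have hcR : (100 : ℝ) ≤ c := by exact_mod_cast hc
  have h0 : 5 * R ^ 2 ≤ 1 := r_sq_le (by linarith) (by norm_num) hR
  have h1 : |2 * R| ≤ 9 / 10 := sq_le_of (by norm_num) (by
    calc (2 * R) ^ 2 = 4 * R ^ 2 := by ring
      _ ≤ (9 / 10) ^ 2 := by linarith)
  obtain ⟨h2, h3⟩ := abs_le.1 h1
  have h4 : (q : ℝ) < c + 2 := by rw [hq]; linarith
  have h5 : (c : ℝ) - 2 < q := by rw [hq]; linarith
  have h6 : q < c + 2 := by exact_mod_cast h4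
  have h7 : c - 2 < q := by exact_mod_cast h5
  exact ⟨by omega, by omega⟩

theorem q_bound' {X R : ℝ} {q c : ℤ} (hX : 5 / 4 < X) (hR : X * R ^ 2 ≤ 1)
    (hq : (q : ℝ) = X + 2 * R) (hc : X ≤ c) : 0 ≤ q ∧ q ≤ c + 1 := by
  have h0 : 5 / 4 * R ^ 2 ≤ 1 := r_sq_le hX (by norm_num) hR
  have h2 : |2 * R| ≤ 9 / 5 := sq_le_of (by norm_num) (by
    calc (2 * R) ^ 2 = 4 * R ^ 2 := by ring
      _ ≤ (9 / 5) ^ 2 := by linarith)
  obtain ⟨h3, h4⟩ := abs_le.1 h2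
  have h5 : (-1 : ℝ) < q := by rw [hq]; linarith
  have h6 : (q : ℝ) < c + 2 := by rw [hq]; linarith
  have h7 : -1 < q := by exact_mod_cast h5
  have h8 : q < c + 2 := by exact_mod_cast h6
  exact ⟨by omega, by omega⟩

theorem bd2 {X k s w : ℝ} (hX0 : 0 < X) (hb1 : X ^ 2 ≤ k - 1)
    (hb2 : k - 4 - 3 / 2 * w ^ 2 ≤ X ^ 2) (hw : 40 ≤ w) (hws : w ^ 2 ≤ s) (hs1 : s ^ 2 ≤ k)
    (hs2 : k < (s + 1) ^ 2) (hku : k < (w + 1) ^ 4) :
    4 * X ≤ (2 * (w + 1)) ^ 2 ∧ X < s + 1 ∧ s - 1 ≤ X ∧ 100 ≤ s := by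
  have hs0 : 1600 ≤ s := by nlinarith
  refine ⟨?_, ?_, ?_, by linarith⟩
  · have h1 : X < (w + 1) ^ 2 := by
      apply lt_of_pow_lt_pow_left₀ 2 (by positivity)
      calc X ^ 2 ≤ k - 1 := hb1
        _ < (w + 1) ^ 4 := by linarith
        _ = ((w + 1) ^ 2) ^ 2 := by ring
    nlinarith
  · apply lt_of_pow_lt_pow_left₀ 2 (by linarith)
    linarith
  · by_contra h
    push Not at h
    have h4 : X ^ 2 < (s - 1) ^ 2 := pow_lt_pow_left₀ h hX0.le (by norm_num)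
    nlinarith

theorem bd3 {X k m w : ℝ} (hX0 : 0 < X) (hb1 : X ^ 3 ≤ k - 1)
    (hb2 : k - 4 - 3 / 2 * w ^ 2 ≤ X ^ 3) (hw : 40 ≤ w) (hm0 : 0 ≤ m) (hm1 : m ^ 3 ≤ k)
    (hm2 : k < (m + 1) ^ 3) (hkw : w ^ 4 ≤ k) (hku : k < (w + 1) ^ 4) :
    4 * X ≤ (w + 1) ^ 2 ∧ X < m + 1 ∧ m - 1 ≤ X ∧ 100 ≤ m := by
  have hmw : 3 * w ≤ m + 1 := by
    by_contra h
    push Not at h
    have h4 : (m + 1) ^ 3 < (3 * w) ^ 3 := pow_lt_pow_left₀ h (by positivity) (by norm_num)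
    have h6 : (3 * w) ^ 3 ≤ w ^ 4 := by
      have h7 : 0 ≤ w ^ 3 := by positivity
      calc (3 * w) ^ 3 = 27 * w ^ 3 := by ring
        _ ≤ w * w ^ 3 := mul_le_mul_of_nonneg_right (by linarith) h7
        _ = w ^ 4 := by ring
    linarith
  refine ⟨?_, ?_, ?_, by linarith⟩
  · by_contra h
    push Not at h
    have h4 : ((w + 1) ^ 2) ^ 3 < (4 * X) ^ 3 := pow_lt_pow_left₀ h (by positivity) (by norm_num)
    have h7 : 64 ≤ (w + 1) ^ 2 := by nlinarith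
    have h8 : 0 < (w + 1) ^ 4 := by positivity
    have h9 : 64 * (w + 1) ^ 4 ≤ ((w + 1) ^ 2) ^ 3 := by
      calc 64 * (w + 1) ^ 4 ≤ (w + 1) ^ 2 * (w + 1) ^ 4 := mul_le_mul_of_nonneg_right h7 h8.le
        _ = ((w + 1) ^ 2) ^ 3 := by ring
    have h5 : (4 * X) ^ 3 = 64 * X ^ 3 := by ring
    linarith
  · apply lt_of_pow_lt_pow_left₀ 3 (by linarith)
    linarith
  · by_contra h
    push Not at h
    have h4 : X ^ 3 < (m - 1) ^ 3 := pow_lt_pow_left₀ h hX0.le (by norm_num)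
    have h5 : (m - 1) ^ 3 = m ^ 3 - 3 * m ^ 2 + 3 * m - 1 := by ring
    nlinarith

theorem bd4 {X k w : ℝ} {N : ℕ} (hX : 1 < X) (hN : 4 ≤ N) (hb1 : X ^ N ≤ k - 1) (hw : 0 ≤ w)
    (hku : k < (w + 1) ^ 4) : X ≤ w + 1 := by
  have h2 : X ^ 4 ≤ X ^ N := pow_le_pow_right₀ hX.le hN
  apply le_of_lt
  apply lt_of_pow_lt_pow_left₀ 4 (by linarith)
  linarith

theorem card_bound {A w v : ℤ} (hA : A = 18 * (w + 1) + 7 + (w + 3) * (2 * (v + 1) + 1))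
    (hw : 40 ≤ w) (hv : v ^ 2 ≤ 4 * (w + 1)) : 2 * A ≤ 3 * w ^ 2 := by
  have h1 : 26 * v ≤ 4 * (w + 1) + 169 := by nlinarith [sq_nonneg (v - 13)]
  rw [hA]
  nlinarith

theorem a_bound {a k w : ℤ} (ha1 : 1 ≤ a) (h1 : 2 * a ≤ 3 * w ^ 2) (hw : 40 ≤ w)
    (hk : w ^ 4 ≤ k) : 2 * a + 3 ≤ k - 2 - a ∧ a ^ 2 < 3 * (k - 2 - a) := by
  have h3 : 1600 ≤ w ^ 2 := by nlinarith
  have h4 : 1600 * w ^ 2 ≤ w ^ 4 := by
    calc 1600 * w ^ 2 ≤ w ^ 2 * w ^ 2 := mul_le_mul_of_nonneg_right h3 (by linarith)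
      _ = w ^ 4 := by ring
  have h2 : (2 * a) ^ 2 ≤ (3 * w ^ 2) ^ 2 := pow_le_pow_left₀ (by linarith) h1 2
  have h5 : (3 * w ^ 2) ^ 2 = 9 * w ^ 4 := by ring
  have h6 : (2 * a) ^ 2 = 4 * a ^ 2 := by ring
  constructor
  · linarith
  · linarith

end Pool.Agent.X4.VS
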