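import Mathlib

set_option autoImplicit false

/-! # Complex cubic fields: embeddings, traces, norms, units -/

namespace Pool.Agent.X4.VS

open Finset NumberField Module

section

variable {K : Type} [Field K] [NumberField K]

/-- the real embedding as a complex one -/
noncomputable def toC (φ : K →+* ℝ) : K →+* ℂ := Complex.ofRealHom.comp φ

theorem toC_apply (φ : K →+* ℝ) (y : K) : toC φ y = ((φ y : ℝ) : ℂ) := rfl

theorem univ_eq (h3 : finrank ℚ K = 3) (φ : K →+* ℝ) (ψ : K →+* ℂ)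
    (hψ : ∃ y, (ψ y).im ≠ 0) :
    ∃ A B C : K →ₐ[ℚ] ℂ, (∀ F : (K →ₐ[ℚ] ℂ) → ℂ, ∑ σ, F σ = F A + (F B + F C)) ∧
      (∀ F : (K →ₐ[ℚ] ℂ) → ℂ, ∏ σ, F σ = F A * (F B * F C)) ∧
      (∀ y, A y = ((φ y : ℝ) : ℂ)) ∧ (∀ y, B y = ψ y) ∧
      (∀ y, C y = (starRingEnd ℂ) (ψ y)) := by
  classical
  obtain ⟨z, hz⟩ := hψ
  let A : K →ₐ[ℚ] ℂ := (toC φ).toRatAlgHom
  let B : K →ₐ[ℚ] ℂ := ψ.toRatAlgHom
  let C : K →ₐ[ℚ] ℂ := ((starRingEnd ℂ).comp ψ).toRatAlgHom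
  have hA : ∀ y, A y = ((φ y : ℝ) : ℂ) := fun y => rfl
  have hB : ∀ y, B y = ψ y := fun y => rfl
  have hC : ∀ y, C y = (starRingEnd ℂ) (ψ y) := fun y => rfl
  have hAB : A ≠ B := by
    intro h
    apply hz
    rw [← hB, ← h, hA, Complex.ofReal_im]
  have hAC : A ≠ C := by
    intro h
    apply hz
    have h1 : ((φ z : ℝ) : ℂ) = (starRingEnd ℂ) (ψ z) := by rw [← hA, ← hC, h]
    have h2 := congrArg Complex.im h1
    rw [Complex.ofReal_im, Complex.conj_im] at h2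
    linarith
  have hBC : B ≠ C := by
    intro h
    apply hz
    have h1 : ψ z = (starRingEnd ℂ) (ψ z) := by rw [← hC, ← hB, h]
    have h2 := congrArg Complex.im h1
    rw [Complex.conj_im] at h2
    linarith
  have n1 : B ∉ ({C} : Finset (K →ₐ[ℚ] ℂ)) := by
    rw [Finset.mem_singleton]
    exact hBC
  have n2 : A ∉ ({B, C} : Finset (K →ₐ[ℚ] ℂ)) := by
    rw [Finset.mem_insert, Finset.mem_singleton, not_or]
    exact ⟨hAB, hAC⟩
  have hU : ({A, B, C} : Finset (K →ₐ[ℚ] ℂ)) = univ := by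
    apply Finset.eq_univ_of_card
    rw [Finset.card_insert_of_notMem n2, Finset.card_insert_of_notMem n1, Finset.card_singleton,
      AlgHom.card, h3]
  refine ⟨A, B, C, fun F => ?_, fun F => ?_, hA, hB, hC⟩
  · rw [← hU, Finset.sum_insert n2, Finset.sum_insert n1, Finset.sum_singleton]
  · rw [← hU, Finset.prod_insert n2, Finset.prod_insert n1, Finset.prod_singleton]

theorem trace_eq3 (h3 : finrank ℚ K = 3) (φ : K →+* ℝ) (ψ : K →+* ℂ)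
    (hψ : ∃ y, (ψ y).im ≠ 0) (y : K) :
    ((Algebra.trace ℚ K y : ℚ) : ℝ) = φ y + 2 * (ψ y).re := by
  obtain ⟨A, B, C, hS, -, hA, hB, hC⟩ := univ_eq h3 φ ψ hψ
  have h1 := trace_eq_sum_embeddings (K := ℚ) (L := K) ℂ (x := y)
  have h4 : ∑ σ : K →ₐ[ℚ] ℂ, σ y = A y + (B y + C y) := hS (fun σ => σ y)
  rw [h4, hA, hB, hC, Complex.add_conj] at h1
  have h5 : algebraMap ℚ ℂ (Algebra.trace ℚ K y) = (((Algebra.trace ℚ K y : ℚ) : ℝ) : ℂ) := by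
    simp
  rw [h5] at h1
  exact_mod_cast h1

theorem norm_eq3 (h3 : finrank ℚ K = 3) (φ : K →+* ℝ) (ψ : K →+* ℂ)
    (hψ : ∃ y, (ψ y).im ≠ 0) (y : K) :
    ((Algebra.norm ℚ y : ℚ) : ℝ) = φ y * Complex.normSq (ψ y) := by
  obtain ⟨A, B, C, -, hS, hA, hB, hC⟩ := univ_eq h3 φ ψ hψ
  have h1 := Algebra.norm_eq_prod_embeddings ℚ ℂ y
  have h4 : ∏ σ : K →ₐ[ℚ] ℂ, σ y = A y * (B y * C y) := hS (fun σ => σ y)
  rw [h4, hA, hB, hC, Complex.mul_conj] at h1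
  have h5 : algebraMap ℚ ℂ (Algebra.norm ℚ y) = (((Algebra.norm ℚ y : ℚ) : ℝ) : ℂ) := by
    simp
  rw [h5] at h1
  exact_mod_cast h1

/-- the trace of an integer -/
theorem trace_int (h3 : finrank ℚ K = 3) (φ : K →+* ℝ) (ψ : K →+* ℂ)
    (hψ : ∃ y, (ψ y).im ≠ 0) (u : 𝓞 K) : ∃ p : ℤ, (p : ℝ) = φ u + 2 * (ψ u).re := by
  refine ⟨Algebra.trace ℤ (𝓞 K) u, ?_⟩
  rw [← trace_eq3 h3 φ ψ hψ, ← Algebra.coe_trace_int]
  push_cast
  rfl

/-- the norm of a unit -/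
theorem norm_unit (h3 : finrank ℚ K = 3) (φ : K →+* ℝ) (ψ : K →+* ℂ)
    (hψ : ∃ y, (ψ y).im ≠ 0) (u : (𝓞 K)ˣ) :
    |φ (u : 𝓞 K)| * Complex.normSq (ψ (u : 𝓞 K)) = 1 := by
  have h1 := NumberField.Units.norm K u
  have h2 := norm_eq3 h3 φ ψ hψ ((u : 𝓞 K) : K)
  have h4 : |(Algebra.norm ℚ ((u : 𝓞 K) : K) : ℚ)| = 1 := h1
  have h5 : |((Algebra.norm ℚ ((u : 𝓞 K) : K) : ℚ) : ℝ)| = 1 := by exact_mod_cast h4
  rw [h2, abs_mul, abs_of_nonneg (Complex.normSq_nonneg _)] at h5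
  exact h5

/-- the unit rank is one -/
theorem rank_eq (h3 : finrank ℚ K = 3) (φ : K →+* ℝ) (ψ : K →+* ℂ)
    (hψ : ∃ y, (ψ y).im ≠ 0) : Units.rank K = 1 := by
  have h1 := InfinitePlace.card_add_two_mul_card_eq_rank K
  have h2 : Units.rank K =
      InfinitePlace.nrRealPlaces K + InfinitePlace.nrComplexPlaces K - 1 := by
    rw [← InfinitePlace.card_eq_nrRealPlaces_add_nrComplexPlaces]
    rfl
  have h4 : 0 < InfinitePlace.nrComplexPlaces K := by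
    have h5 : ¬ ComplexEmbedding.IsReal ψ := by
      intro h
      obtain ⟨y, hy⟩ := hψ
      apply hy
      have h6 := DFunLike.congr_fun h y
      have h7 : (starRingEnd ℂ) (ψ y) = ψ y := h6
      exact Complex.conj_eq_iff_im.1 h7
    by_contra h6
    have h7 : InfinitePlace.nrComplexPlaces K = 0 := by omega
    rw [nrComplexPlaces_eq_zero_iff] at h7
    exact h5 (InfinitePlace.isReal_mk_iff.1 (h7.isReal (InfinitePlace.mk ψ)))
  rw [h3] at h1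
  omega

/-- torsion units are `1` and `-1` -/
theorem torsion_eq (φ : K →+* ℝ) (ζ : Units.torsion K) :
    (ζ : (𝓞 K)ˣ) = 1 ∨ (ζ : (𝓞 K)ˣ) = -1 := by
  have h1 : (ζ : (𝓞 K)ˣ) ∈ CommGroup.torsion (𝓞 K)ˣ := ζ.2
  rw [CommGroup.mem_torsion, isOfFinOrder_iff_pow_eq_one] at h1
  obtain ⟨n, hn, h2⟩ := h1
  have h3 : (φ (((ζ : (𝓞 K)ˣ) : 𝓞 K) : K)) ^ n = 1 := by
    rw [← map_pow, ← map_pow, ← Units.val_pow_eq_pow_val, h2]
    simp
  have h4 : |φ (((ζ : (𝓞 K)ˣ) : 𝓞 K) : K)| = 1 := by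
    have h5 : |φ (((ζ : (𝓞 K)ˣ) : 𝓞 K) : K)| ^ n = 1 := by rw [← abs_pow, h3, abs_one]
    exact (pow_eq_one_iff_of_nonneg (abs_nonneg _) hn.ne').1 h5
  rcases eq_or_eq_neg_of_abs_eq h4 with h5 | h5
  · left
    apply Units.ext
    apply RingOfIntegers.ext
    apply φ.injective
    rw [h5]
    simp
  · right
    apply Units.ext
    apply RingOfIntegers.ext
    apply φ.injective
    rw [h5]
    simp

/-- **The fundamental unit.** -/
theorem exists_fund (h3 : finrank ℚ K = 3) (φ : K →+* ℝ) (ψ : K →+* ℂ)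
    (hψ : ∃ y, (ψ y).im ≠ 0) (v : (𝓞 K)ˣ) (hv : |φ (v : 𝓞 K)| ≠ 1) :
    ∃ η : (𝓞 K)ˣ, 1 < φ (η : 𝓞 K) ∧ ∀ u : (𝓞 K)ˣ, ∃ m : ℤ, u = η ^ m ∨ u = -η ^ m := by
  have hr := rank_eq h3 φ ψ hψ
  obtain ⟨η, hη⟩ : ∃ η : (𝓞 K)ˣ, ∀ u : (𝓞 K)ˣ, ∃ m : ℤ, u = η ^ m ∨ u = -η ^ m := by
    let i0 : Fin (Units.rank K) := ⟨0, by omega⟩
    refine ⟨Units.fundSystem K i0, fun u => ?_⟩
    obtain ⟨ζ, hζ, -⟩ := Units.exist_unique_eq_mul_prod K u
    refine ⟨ζ.2 i0, ?_⟩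
    have h8 : u = (ζ.1 : (𝓞 K)ˣ) * ∏ i, Units.fundSystem K i ^ ζ.2 i := hζ
    have h9 : ∏ i, Units.fundSystem K i ^ ζ.2 i = Units.fundSystem K i0 ^ ζ.2 i0 := by
      apply Finset.prod_eq_single i0
      · intro i _ hi
        exact absurd (Fin.ext (by have := i.2; simp only [i0]; omega)) hi
      · exact fun h => absurd (Finset.mem_univ _) h
    rw [h9] at h8
    rcases torsion_eq φ ζ.1 with h | h
    · left
      rw [h8, h, one_mul]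
    · right
      rw [h8, h, neg_one_mul]
  have hval : ∀ (x : (𝓞 K)ˣ) (m : ℤ), φ ((x ^ m : (𝓞 K)ˣ) : 𝓞 K) = φ (x : 𝓞 K) ^ m := by
    intro x m
    have h1 : (((x ^ m : (𝓞 K)ˣ) : 𝓞 K) : K) = ((x : 𝓞 K) : K) ^ m := by
      exact NumberField.Units.coe_zpow x m
    rw [h1, map_zpow₀]
  have hneg : ∀ x : (𝓞 K)ˣ, φ ((-x : (𝓞 K)ˣ) : 𝓞 K) = -φ (x : 𝓞 K) := by
    intro x
    rw [Units.val_neg]
    show φ (algebraMap (𝓞 K) K (-(x : 𝓞 K))) = _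
    rw [map_neg, map_neg]
  have hne : φ (η : 𝓞 K) ≠ 0 := by
    intro h
    rw [map_eq_zero] at h
    exact NumberField.Units.coe_ne_zero η h
  have habs : |φ (η : 𝓞 K)| ≠ 1 := by
    intro h
    obtain ⟨m, hm⟩ := hη v
    apply hv
    rcases hm with hm | hm
    · rw [hm, hval, abs_zpow, h, one_zpow]
    · rw [hm, hneg, hval, abs_neg, abs_zpow, h, one_zpow]
  -- the sign
  obtain ⟨η', hη', hpos⟩ : ∃ η' : (𝓞 K)ˣ, (∀ u : (𝓞 K)ˣ, ∃ m : ℤ, u = η' ^ m ∨ u = -η' ^ m) ∧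
      0 < φ (η' : 𝓞 K) ∧ φ (η' : 𝓞 K) ≠ 1 := by
    rcases lt_or_gt_of_ne hne with h | h
    · refine ⟨-η, fun u => ?_, ?_, ?_⟩
      · obtain ⟨m, hm⟩ := hη u
        refine ⟨m, ?_⟩
        rcases Int.even_or_odd m with he | ho
        · rw [he.neg_zpow]
          exact hm
        · rw [ho.neg_zpow, neg_neg]
          exact hm.symm
      · rw [hneg]
        linarith
      · rw [hneg]
        rw [abs_of_neg h] at habs
        exact habs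
    · refine ⟨η, hη, h, ?_⟩
      rw [abs_of_pos h] at habs
      exact habs
  rcases lt_or_gt_of_ne hpos.2 with h | h
  · refine ⟨η'⁻¹, ?_, fun u => ?_⟩
    · have h1 := hval η' (-1)
      rw [zpow_neg_one, zpow_neg_one] at h1
      rw [h1]
      exact (one_lt_inv₀ hpos.1).2 h
    · obtain ⟨m, hm⟩ := hη' u
      refine ⟨-m, ?_⟩
      rw [inv_zpow', neg_neg]
      exact hm
  · exact ⟨η', h, hη'⟩

end

end Pool.Agent.X4.VS
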