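import Mathlib

set_option autoImplicit false

/-! # Power sums of a cubic unit -/

namespace Pool.Agent.X4.VS

open Complex

/-- the power sums of the roots of `y³ - p y² + q y - 1` -/
def S (p q : ℤ) : ℕ → ℤ
  | 0 => 3
  | 1 => p
  | 2 => p ^ 2 - 2 * q
  | (n + 3) => p * S p q (n + 2) - q * S p q (n + 1) + S p q n

theorem re_inv_of {y : ℝ} {v : ℂ} (h : y * Complex.normSq v = 1) :
    (v⁻¹).re = y * v.re := by
  have h1 : Complex.normSq v ≠ 0 := by
    intro h2
    rw [h2, mul_zero] at h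
    exact zero_ne_one h
  rw [Complex.inv_re, div_eq_iff h1]
  linear_combination -v.re * h

theorem sq_eq {y : ℝ} (hy : 0 < y) {v : ℂ} (h : y * Complex.normSq v = 1) :
    v ^ 2 = ((2 * v.re : ℝ) : ℂ) * v - ((1 / y : ℝ) : ℂ) := by
  have h1 : Complex.normSq v = 1 / y := by
    rw [eq_div_iff hy.ne', mul_comm]
    exact h
  have h2 : v * (starRingEnd ℂ) v = ((1 / y : ℝ) : ℂ) := by
    rw [Complex.mul_conj, h1]
  have h3 : v + (starRingEnd ℂ) v = ((2 * v.re : ℝ) : ℂ) := Complex.add_conj v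
  rw [← h3, ← h2]
  ring

/-- **Power sums.** -/
theorem S_eq {p q : ℤ} {y : ℝ} (hy : 0 < y) {v : ℂ} (h : y * Complex.normSq v = 1)
    (hp : (p : ℝ) = y + 2 * v.re) (hq : (q : ℝ) = 1 / y + 2 * (y * v.re)) (n : ℕ) :
    (S p q n : ℝ) = y ^ n + 2 * (v ^ n).re := by
  have hv2 := sq_eq hy h
  have hy1 : y * (1 / y) = 1 := by field_simp
  have hy3 : y ^ 3 = p * y ^ 2 - q * y + 1 := by
    rw [hp, hq]
    linear_combination hy1
  have hy1' : (y : ℂ) * ((1 / y : ℝ) : ℂ) = 1 := by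
    rw [← Complex.ofReal_mul, hy1, Complex.ofReal_one]
  have hv3 : v ^ 3 = ((p : ℝ) : ℂ) * v ^ 2 - ((q : ℝ) : ℂ) * v + 1 := by
    rw [hp, hq]
    push_cast at hv2 hy1' ⊢
    linear_combination (v - y) * hv2 + hy1'
  have hrec : ∀ m : ℕ, y ^ (m + 3) + 2 * (v ^ (m + 3)).re =
      p * (y ^ (m + 2) + 2 * (v ^ (m + 2)).re) - q * (y ^ (m + 1) + 2 * (v ^ (m + 1)).re) +
        (y ^ m + 2 * (v ^ m).re) := by
    intro m
    have h1 : y ^ (m + 3) = p * y ^ (m + 2) - q * y ^ (m + 1) + y ^ m := by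
      linear_combination y ^ m * hy3
    have h2 : v ^ (m + 3) =
        ((p : ℝ) : ℂ) * v ^ (m + 2) - ((q : ℝ) : ℂ) * v ^ (m + 1) + v ^ m := by
      linear_combination v ^ m * hv3
    have h3 : (v ^ (m + 3)).re = p * (v ^ (m + 2)).re - q * (v ^ (m + 1)).re + (v ^ m).re := by
      rw [h2, Complex.add_re, Complex.sub_re, Complex.re_ofReal_mul, Complex.re_ofReal_mul]
    rw [h1, h3]
    ring
  have key : ∀ m : ℕ, (S p q m : ℝ) = y ^ m + 2 * (v ^ m).re ∧
      (S p q (m + 1) : ℝ) = y ^ (m + 1) + 2 * (v ^ (m + 1)).re ∧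
      (S p q (m + 2) : ℝ) = y ^ (m + 2) + 2 * (v ^ (m + 2)).re := by
    intro m
    induction m with
    | zero =>
      refine ⟨?_, ?_, ?_⟩
      · simp [S]
        norm_num
      · simp only [S, zero_add, pow_one]
        exact hp
      · simp only [S, zero_add]
        push_cast
        rw [hv2, hp, hq, Complex.sub_re, Complex.re_ofReal_mul, Complex.ofReal_re]
        linear_combination 0 * hy1
    | succ m ih =>
      obtain ⟨h1, h2, h3⟩ := ih
      refine ⟨h2, h3, ?_⟩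
      show (S p q (m + 3) : ℝ) = y ^ (m + 3) + 2 * (v ^ (m + 3)).re
      rw [hrec m, S]
      push_cast
      rw [h1, h2, h3]
  exact (key n).1

end Pool.Agent.X4.VS
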