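import Mathlib
import Pool.Agent.X4.VS.Seq
import Pool.Agent.X4.VS.Emb

set_option autoImplicit false

/-! # When is the unit fundamental -/

namespace Pool.Agent.X4.VS

open Finset NumberField Module

/-- the data of a root of the unit -/
def Data (a b : ℤ) : Prop :=
  ∃ (n : ℕ) (p q : ℤ) (x r : ℝ), n.Prime ∧ 5 / 4 < x ∧ x * r ^ 2 ≤ 1 ∧ (q : ℝ) = x + 2 * r ∧
    (p : ℝ) = 1 / x + 2 * (x * r) ∧ |(b : ℝ) - x ^ n| ≤ 2 ∧ S p q n = a ∧ S q p n = b

section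

variable {K : Type} [Field K] [NumberField K]

/-- **The data of a root.** -/
theorem data_of (h3 : finrank ℚ K = 3) (φ : K →+* ℝ) (ψ : K →+* ℂ)
    (hψ : ∃ y, (ψ y).im ≠ 0) {a b : ℤ} {l : ℝ} (hl0 : 0 < l)
    (hl : 1 + a * l ^ 2 - l ^ 3 = b * l) (α : (𝓞 K)ˣ) (hα : φ (α : 𝓞 K) = -l)
    (hψα : 2 * (ψ (α : 𝓞 K)).re = l - a) {n : ℕ} (hn : n.Prime) (δ : (𝓞 K)ˣ)
    (hδ : 1 < φ (δ : 𝓞 K)) (h : α * δ ^ n = -1) : Data a b := by
  -- the embeddings of the unit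
  have hN := norm_unit h3 φ ψ hψ δ
  have hNα := norm_unit h3 φ ψ hψ α
  obtain ⟨x, hx⟩ : ∃ x : ℝ, x = φ (δ : 𝓞 K) := ⟨_, rfl⟩
  obtain ⟨w, hw⟩ : ∃ w : ℂ, w = ψ (δ : 𝓞 K) := ⟨_, rfl⟩
  rw [← hx] at hN hδ
  rw [← hw] at hN
  have hx0 : 0 < x := by linarith
  rw [abs_of_pos hx0] at hN
  rw [hα, abs_neg, abs_of_pos hl0] at hNα
  have hw0 : w ≠ 0 := by
    rintro rfl
    simp at hN
  have hinv : (((δ⁻¹ : (𝓞 K)ˣ) : 𝓞 K) : K) = ((δ : 𝓞 K) : K)⁻¹ := by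
    have h1 := NumberField.Units.coe_zpow δ (-1)
    rw [zpow_neg_one, zpow_neg_one] at h1
    exact h1
  have hinvφ : φ ((δ⁻¹ : (𝓞 K)ˣ) : 𝓞 K) = x⁻¹ := by
    rw [hinv, map_inv₀, hx]
  have hinvψ : ψ ((δ⁻¹ : (𝓞 K)ˣ) : 𝓞 K) = w⁻¹ := by
    rw [hinv, map_inv₀, hw]
  obtain ⟨q, hq⟩ := trace_int h3 φ ψ hψ (δ : 𝓞 K)
  obtain ⟨p, hp⟩ := trace_int h3 φ ψ hψ ((δ⁻¹ : (𝓞 K)ˣ) : 𝓞 K)
  rw [← hx, ← hw] at hq
  rw [hinvφ, hinvψ] at hp
  have hre := re_inv_of hN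
  have hp' : (p : ℝ) = 1 / x + 2 * (x * w.re) := by rw [hp, hre, one_div]
  -- the power sums
  have hS1 := S_eq (p := q) (q := p) hx0 hN hq hp' n
  have hN' : x⁻¹ * Complex.normSq w⁻¹ = 1 := by
    rw [map_inv₀, ← mul_inv, hN, inv_one]
  have hre' := re_inv_of hN'
  rw [inv_inv] at hre'
  have hS2 := S_eq (p := p) (q := q) (inv_pos.2 hx0) hN' hp (by
    rw [hq, hre', one_div, inv_inv]) n
  -- the equations
  have hφn : -l * x ^ n = -1 := by
    have h1 : φ ((α * δ ^ n : (𝓞 K)ˣ) : 𝓞 K) = φ ((-1 : (𝓞 K)ˣ) : 𝓞 K) := by rw [h]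
    have h2 : φ ((α * δ ^ n : (𝓞 K)ˣ) : 𝓞 K) = φ (α : 𝓞 K) * φ (δ : 𝓞 K) ^ n := by
      rw [Units.val_mul, Units.val_pow_eq_pow_val]
      show φ (algebraMap (𝓞 K) K ((α : 𝓞 K) * (δ : 𝓞 K) ^ n)) = _
      rw [map_mul, map_mul, map_pow, map_pow]
    rw [h2, hα, ← hx, Units.val_neg, Units.val_one] at h1
    have h4 : φ (algebraMap (𝓞 K) K (-1)) = -1 := by rw [map_neg, map_neg, map_one, map_one]
    rw [h1]
    exact h4
  have hψn : ψ (α : 𝓞 K) * w ^ n = -1 := by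
    have h1 : ψ ((α * δ ^ n : (𝓞 K)ˣ) : 𝓞 K) = ψ ((-1 : (𝓞 K)ˣ) : 𝓞 K) := by rw [h]
    have h2 : ψ ((α * δ ^ n : (𝓞 K)ˣ) : 𝓞 K) = ψ (α : 𝓞 K) * ψ (δ : 𝓞 K) ^ n := by
      rw [Units.val_mul, Units.val_pow_eq_pow_val]
      show ψ (algebraMap (𝓞 K) K ((α : 𝓞 K) * (δ : 𝓞 K) ^ n)) = _
      rw [map_mul, map_mul, map_pow, map_pow]
    rw [h2, ← hw, Units.val_neg, Units.val_one] at h1
    have h4 : ψ (algebraMap (𝓞 K) K (-1)) = -1 := by rw [map_neg, map_neg, map_one, map_one]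
    rw [h1]
    exact h4
  have hx1 : x ^ n = l⁻¹ := eq_inv_of_mul_eq_one_left (by linarith)
  set v : ℂ := ψ (α : 𝓞 K) with hv
  have hv0 : v ≠ 0 := by
    rintro h0
    rw [h0, zero_mul] at hψn
    norm_num at hψn
  have hwn : w ^ n = -v⁻¹ := by
    rw [← mul_right_inj' hv0, hψn, mul_neg, mul_inv_cancel₀ hv0]
  have hwn' : (w⁻¹) ^ n = -v := by
    rw [inv_pow, hwn, inv_neg, inv_inv]
  have hrev := re_inv_of (y := l) (v := v) hNα
  have hlinv : l⁻¹ = b - a * l + l ^ 2 :=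
    (eq_inv_of_mul_eq_one_left (by linear_combination -hl)).symm
  have hb : (S q p n : ℝ) = b := by
    rw [hS1, hx1, hwn, Complex.neg_re, hrev, hlinv]
    linear_combination -l * hψα
  have ha : (S p q n : ℝ) = a := by
    rw [hS2, hwn', Complex.neg_re, inv_pow, hx1, inv_inv]
    linear_combination -hψα
  -- the sizes
  have hr : x * w.re ^ 2 ≤ 1 := by
    rw [← hN]
    refine mul_le_mul_of_nonneg_left ?_ hx0.le
    rw [Complex.normSq_apply]
    nlinarith [mul_self_nonneg w.im]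
  have hnw : Complex.normSq w ≤ 1 := by
    have h1 : Complex.normSq w ≤ x * Complex.normSq w := by
      nlinarith [Complex.normSq_nonneg w]
    linarith
  have hwle : ‖w‖ ≤ 1 := by
    rw [Complex.normSq_eq_norm_sq] at hnw
    nlinarith [norm_nonneg w]
  have hbx : |(b : ℝ) - x ^ n| ≤ 2 := by
    rw [← hb, hS1, add_sub_cancel_left, abs_mul, abs_two]
    have h1 : |(w ^ n).re| ≤ 1 := by
      refine (Complex.abs_re_le_norm _).trans ?_
      rw [norm_pow]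
      exact pow_le_one₀ (norm_nonneg _) hwle
    linarith
  -- the lower bound
  have h54 : 5 / 4 < x := by
    set r := w.re with hr'
    have h1 : ((q - p : ℤ) : ℝ) = (x - 1) * (1 + 1 / x - 2 * r) := by
      push_cast
      rw [hq, hp']
      have h2 : x * (1 / x) = 1 := by field_simp
      linear_combination -h2
    have hrl : r ≤ 1 := by
      nlinarith
    have hrg : -1 ≤ r := by
      nlinarith
    have h2x : 0 < 1 / x := by positivity
    have h2x1 : 1 / x < 1 := by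
      rw [div_lt_one hx0]
      exact hδ
    have h3 : 1 + 1 / x - 2 * r < 4 := by linarith
    have h4 : 0 < 1 + 1 / x - 2 * r := by
      by_contra hcon
      push Not at hcon
      have h5 : x * (1 / x) = 1 := by field_simp
      set y := 1 / x with hy
      have h6 : r ^ 2 ≤ y := by
        have : y * (x * r ^ 2) ≤ y * 1 := mul_le_mul_of_nonneg_left hr h2x.le
        nlinarith
      nlinarith [sq_nonneg (1 - y)]
    have h5 : (0 : ℝ) < ((q - p : ℤ) : ℝ) := by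
      rw [h1]
      exact mul_pos (by linarith) h4
    have h6 : (1 : ℝ) ≤ ((q - p : ℤ) : ℝ) := by
      have h7 : 0 < q - p := by exact_mod_cast h5
      exact_mod_cast h7
    rw [h1] at h6
    nlinarith
  exact ⟨n, p, q, x, w.re, hn, h54, hr, hq, hp', hbx, by exact_mod_cast ha, by exact_mod_cast hb⟩

/-- **Alternative.** The unit `α` generates the units or it is a power. -/
theorem gen_or_data (h3 : finrank ℚ K = 3) (φ : K →+* ℝ) (ψ : K →+* ℂ)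
    (hψ : ∃ y, (ψ y).im ≠ 0) {a b : ℤ} {l : ℝ} (hl0 : 0 < l) (hl1 : l < 1)
    (hl : 1 + a * l ^ 2 - l ^ 3 = b * l) (α : (𝓞 K)ˣ) (hα : φ (α : 𝓞 K) = -l)
    (hψα : 2 * (ψ (α : 𝓞 K)).re = l - a) (hno : ¬ Data a b) (u : (𝓞 K)ˣ) :
    ∃ m : ℤ, u = α ^ m ∨ u = -α ^ m := by
  obtain ⟨η, hη1, hη⟩ := exists_fund h3 φ ψ hψ α (by
    rw [hα, abs_neg, abs_of_pos hl0]
    exact hl1.ne)
  have hη0 : 0 < φ (η : 𝓞 K) := by linarith
  have hval : ∀ (x : (𝓞 K)ˣ) (m : ℤ), φ ((x ^ m : (𝓞 K)ˣ) : 𝓞 K) = φ (x : 𝓞 K) ^ m := by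
    intro x m
    have h1 : (((x ^ m : (𝓞 K)ˣ) : 𝓞 K) : K) = ((x : 𝓞 K) : K) ^ m := by
      exact NumberField.Units.coe_zpow x m
    rw [h1, map_zpow₀]
  have hneg : ∀ x : (𝓞 K)ˣ, φ ((-x : (𝓞 K)ˣ) : 𝓞 K) = -φ (x : 𝓞 K) := by
    intro x
    rw [Units.val_neg]
    show φ (algebraMap (𝓞 K) K (-(x : 𝓞 K))) = _
    rw [map_neg, map_neg]
  obtain ⟨m, hm⟩ := hη α
  have hm' : α = -η ^ m ∧ m < 0 := by
    rcases hm with h | h
    · exfalso
      have h1 : φ (α : 𝓞 K) = φ ((η ^ m : (𝓞 K)ˣ) : 𝓞 K) := by rw [h]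
      rw [hval, hα] at h1
      have := zpow_pos hη0 m
      linarith
    · refine ⟨h, ?_⟩
      by_contra hm0
      push Not at hm0
      have h1 : φ (α : 𝓞 K) = φ ((-η ^ m : (𝓞 K)ˣ) : 𝓞 K) := by rw [h]
      rw [hneg, hval, hα] at h1
      have := one_le_zpow₀ hη1.le hm0
      linarith
  obtain ⟨hαm, hm0⟩ := hm'
  by_cases hm1 : m = -1
  · obtain ⟨j, hj⟩ := hη u
    rw [hm1, zpow_neg_one] at hαm
    have h1 : η = (-α)⁻¹ := by rw [hαm, neg_neg, inv_inv]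
    refine ⟨-j, ?_⟩
    have h2 : η ^ j = α ^ (-j) ∨ η ^ j = -α ^ (-j) := by
      rw [h1, inv_zpow']
      rcases Int.even_or_odd (-j) with he | ho
      · left
        rw [he.neg_zpow]
      · right
        rw [ho.neg_zpow]
    rcases hj with hj | hj <;> rcases h2 with h2 | h2
    · exact Or.inl (hj.trans h2)
    · exact Or.inr (hj.trans h2)
    · right
      rw [hj, h2]
    · left
      rw [hj, h2, neg_neg]
  · exfalso
    obtain ⟨N, hN⟩ : ∃ N : ℕ, (N : ℤ) = -m := ⟨(-m).toNat, by omega⟩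
    have hN2 : N ≠ 1 := by
      rintro rfl
      apply hm1
      push_cast at hN
      omega
    have hN0 : N ≠ 0 := by
      rintro rfl
      push_cast at hN
      omega
    obtain ⟨j, hj⟩ := Nat.minFac_dvd N
    have hprime := Nat.minFac_prime hN2
    have hj0 : j ≠ 0 := by
      rintro rfl
      rw [mul_zero] at hj
      exact hN0 hj
    apply hno
    refine data_of h3 φ ψ hψ hl0 hl α hα hψα hprime (η ^ j) ?_ ?_
    · have h1 := hval η j
      rw [zpow_natCast, zpow_natCast] at h1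
      rw [h1]
      exact one_lt_pow₀ hη1 hj0
    · rw [← pow_mul, mul_comm j, ← hj, hαm]
      have h2 : m = -(N : ℤ) := by omega
      rw [h2, zpow_neg, zpow_natCast, neg_mul, inv_mul_cancel]

end

end Pool.Agent.X4.VS
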