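import Mathlib
import Pool.Agent.X4.VS.Fund
import Pool.Agent.X4.VS.Bds

set_option autoImplicit false

/-! # Most of the units are fundamental -/

namespace Pool.Agent.X4.VS

open Finset

/-- the set of the possible coefficients -/
noncomputable def box (s w v m : ℕ) : Finset (ℤ × ℤ) :=
  (Icc (-(2 * (w + 1) : ℤ)) (2 * (w + 1)) ×ˢ Icc ((s : ℤ) - 1) (s + 1)) ∪
    (Icc (-((w : ℤ) + 1)) (w + 1) ×ˢ Icc ((m : ℤ) - 1) (m + 1)) ∪
    (Icc (-((v : ℤ) + 1)) (v + 1) ×ˢ Icc (0 : ℤ) (w + 2))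

theorem card_box (s w v m : ℕ) : ((box s w v m).card : ℤ) ≤
    (4 * (w + 1) + 1) * 3 + (2 * (w + 1) + 1) * 3 + (2 * (v + 1) + 1) * (w + 3) := by
  have h2 : (box s w v m).card ≤ _ := (Finset.card_union_le _ _).trans
    (Nat.add_le_add_right (Finset.card_union_le _ _) _)
  rw [Finset.card_product, Finset.card_product, Finset.card_product, Int.card_Icc,
    Int.card_Icc, Int.card_Icc, Int.card_Icc, Int.card_Icc, Int.card_Icc] at h2
  have h3 : ((2 * (w + 1) + 1 - -(2 * (w + 1)) : ℤ)).toNat = 4 * (w + 1) + 1 := by omega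
  have h4 : (((s : ℤ) + 1 + 1 - ((s : ℤ) - 1))).toNat = 3 := by omega
  have h5 : (((w : ℤ) + 1 + 1 - -((w : ℤ) + 1))).toNat = 2 * (w + 1) + 1 := by omega
  have h6 : (((m : ℤ) + 1 + 1 - ((m : ℤ) - 1))).toNat = 3 := by omega
  have h7 : (((v : ℤ) + 1 + 1 - -((v : ℤ) + 1))).toNat = 2 * (v + 1) + 1 := by omega
  have h8 : (((w : ℤ) + 2 + 1 - 0)).toNat = w + 3 := by omega
  rw [h3, h4, h5, h6, h7, h8] at h2
  exact_mod_cast h2

/-- the coefficients lie in the set -/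
theorem mem_box {k s w v m : ℕ} {p q : ℤ} {X R : ℝ} {N : ℕ} (hw : 40 ≤ w) (hws : w ^ 2 ≤ s)
    (hs1 : s ^ 2 ≤ k) (hs2 : k < (s + 1) ^ 2) (hm1 : m ^ 3 ≤ k) (hm2 : k < (m + 1) ^ 3)
    (hkw : w ^ 4 ≤ k) (hku : k < (w + 1) ^ 4) (hv : 4 * (w + 1) < (v + 1) ^ 2)
    (hb1 : X ^ N ≤ k - 1) (hb2 : (k : ℝ) - 4 - 3 / 2 * (w : ℝ) ^ 2 ≤ X ^ N) (hN : N.Prime)
    (hX : 5 / 4 < X) (hR : X * R ^ 2 ≤ 1) (hq : (q : ℝ) = X + 2 * R)
    (hp : (p : ℝ) = 1 / X + 2 * (X * R)) : (p, q) ∈ box s w v m := by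
  have hX0 : 0 < X := by linarith
  have hwR : (40 : ℝ) ≤ w := by exact_mod_cast hw
  have hwsR : (w : ℝ) ^ 2 ≤ s := by exact_mod_cast hws
  have hs1R : (s : ℝ) ^ 2 ≤ k := by exact_mod_cast hs1
  have hs2R : (k : ℝ) < ((s : ℝ) + 1) ^ 2 := by exact_mod_cast hs2
  have hm1R : (m : ℝ) ^ 3 ≤ k := by exact_mod_cast hm1
  have hm2R : (k : ℝ) < ((m : ℝ) + 1) ^ 3 := by exact_mod_cast hm2
  have hkwR : (w : ℝ) ^ 4 ≤ k := by exact_mod_cast hkw
  have hkuR : (k : ℝ) < ((w : ℝ) + 1) ^ 4 := by exact_mod_cast hku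
  have hvR : 4 * ((w : ℝ) + 1) < ((v : ℝ) + 1) ^ 2 := by exact_mod_cast hv
  unfold box
  rw [Finset.mem_union, Finset.mem_union, Finset.mem_product, Finset.mem_product,
    Finset.mem_product, Finset.mem_Icc, Finset.mem_Icc, Finset.mem_Icc, Finset.mem_Icc,
    Finset.mem_Icc, Finset.mem_Icc]
  show ((-(2 * (w + 1) : ℤ) ≤ p ∧ p ≤ 2 * (w + 1)) ∧ ((s : ℤ) - 1 ≤ q ∧ q ≤ s + 1) ∨
    (-((w : ℤ) + 1) ≤ p ∧ p ≤ w + 1) ∧ ((m : ℤ) - 1 ≤ q ∧ q ≤ m + 1)) ∨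
    (-((v : ℤ) + 1) ≤ p ∧ p ≤ v + 1) ∧ (0 ≤ q ∧ q ≤ w + 2)
  by_cases hN2 : N = 2
  · rw [hN2] at hb1 hb2
    obtain ⟨h1, h2, h3, h4⟩ := bd2 hX0 hb1 hb2 hwR hwsR hs1R hs2R hkuR
    left; left
    refine ⟨p_bound (c := 2 * (w + 1)) hX hR hp (by positivity) ?_,
      q_bound (c := s) ?_ hR hq ?_ ?_⟩
    · push_cast
      exact h1
    · exact_mod_cast h4
    · push_cast
      exact h3
    · push_cast
      exact h2
  · by_cases hN3 : N = 3
    · rw [hN3] at hb1 hb2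
      obtain ⟨h1, h2, h3, h4⟩ :=
        bd3 hX0 hb1 hb2 hwR (Nat.cast_nonneg m) hm1R hm2R hkwR hkuR
      left; right
      refine ⟨p_bound (c := w + 1) hX hR hp (by positivity) ?_,
        q_bound (c := m) ?_ hR hq ?_ ?_⟩
      · push_cast
        exact h1
      · exact_mod_cast h4
      · push_cast
        exact h3
      · push_cast
        exact h2
    · have hN4 : 4 ≤ N := by
        have := hN.two_le
        omega
      have h1 := bd4 (by linarith) hN4 hb1 (by linarith) hkuR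
      right
      refine ⟨p_bound (c := v + 1) hX hR hp (by positivity) ?_, ?_⟩
      · push_cast
        linarith
      · have h2 := q_bound' (c := w + 1) hX hR hq (by push_cast; exact h1)
        exact ⟨h2.1, by linarith [h2.2]⟩

/-- **Counting.** -/
theorem exists_good (k : ℕ) (hk : 2560000 < k) : ∃ a : ℤ, 1 ≤ a ∧ 2 * a + 3 ≤ k - 2 - a ∧
    a ^ 2 < 3 * (k - 2 - a) ∧ ¬ Data a (k - 2 - a) := by
  classical
  -- the roots
  obtain ⟨s, hs⟩ : ∃ s, s = Nat.sqrt k := ⟨_, rfl⟩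
  obtain ⟨w, hw⟩ : ∃ w, w = Nat.sqrt s := ⟨_, rfl⟩
  obtain ⟨v, hv⟩ : ∃ v, v = Nat.sqrt (4 * (w + 1)) := ⟨_, rfl⟩
  obtain ⟨m, hm1, hm2⟩ := cube_root k
  have hs1 : s ^ 2 ≤ k := by rw [hs]; exact Nat.sqrt_le' k
  have hs2 : k < (s + 1) ^ 2 := by rw [hs]; exact Nat.lt_succ_sqrt' k
  have hw1 : w ^ 2 ≤ s := by rw [hw]; exact Nat.sqrt_le' s
  have hw2 : s < (w + 1) ^ 2 := by rw [hw]; exact Nat.lt_succ_sqrt' s
  have hv1 : v ^ 2 ≤ 4 * (w + 1) := by rw [hv]; exact Nat.sqrt_le' _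
  have hv2 : 4 * (w + 1) < (v + 1) ^ 2 := by rw [hv]; exact Nat.lt_succ_sqrt' _
  have hw40 : 40 ≤ w := by
    by_contra h
    push Not at h
    have h1 : (w + 1) ^ 2 ≤ 40 ^ 2 := Nat.pow_le_pow_left (by omega) 2
    have h2 : s + 1 ≤ 1600 := by omega
    have h3 : (s + 1) ^ 2 ≤ 1600 ^ 2 := Nat.pow_le_pow_left h2 2
    omega
  have hkw : w ^ 4 ≤ k := by
    calc w ^ 4 = (w ^ 2) ^ 2 := by ring
      _ ≤ s ^ 2 := Nat.pow_le_pow_left hw1 2
      _ ≤ k := hs1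
  have hku : k < (w + 1) ^ 4 := by
    calc k < (s + 1) ^ 2 := hs2
      _ ≤ ((w + 1) ^ 2) ^ 2 := Nat.pow_le_pow_left hw2 2
      _ = (w + 1) ^ 4 := by ring
  -- integers
  obtain ⟨A, hA⟩ : ∃ A : ℤ, A = 18 * (w + 1) + 7 + (w + 3) * (2 * (v + 1) + 1) := ⟨_, rfl⟩
  have hw40Z : (40 : ℤ) ≤ w := by exact_mod_cast hw40
  have hkwZ : (w : ℤ) ^ 4 ≤ k := by exact_mod_cast hkw
  have hA2 : 2 * A ≤ 3 * w ^ 2 := card_bound hA hw40Z (by exact_mod_cast hv1)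
  have hab : ∀ a : ℤ, a ∈ Icc 1 A → 2 * a + 3 ≤ k - 2 - a ∧ a ^ 2 < 3 * (k - 2 - a) := by
    intro a ha
    obtain ⟨ha1, ha2⟩ := Finset.mem_Icc.1 ha
    exact a_bound ha1 (by linarith) hw40Z hkwZ
  by_contra hcon
  have hdata : ∀ a : ℤ, a ∈ Icc 1 A → Data a (k - 2 - a) := by
    intro a ha
    by_contra hno
    exact hcon ⟨a, (Finset.mem_Icc.1 ha).1, (hab a ha).1, (hab a ha).2, hno⟩
  clear hcon
  unfold Data at hdata
  choose! n p q x r hn hx hr hq hp hb hSa hSb using hdata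
  have hAR : 2 * (A : ℝ) ≤ 3 * (w : ℝ) ^ 2 := by exact_mod_cast hA2
  have hbd : ∀ a : ℤ, a ∈ Icc 1 A →
      x a ^ n a ≤ k - 1 ∧ (k : ℝ) - 4 - 3 / 2 * (w : ℝ) ^ 2 ≤ x a ^ n a := by
    intro a ha
    obtain ⟨ha1, ha2⟩ := Finset.mem_Icc.1 ha
    have ha1R : (1 : ℝ) ≤ a := by exact_mod_cast ha1
    have ha2R : (a : ℝ) ≤ A := by exact_mod_cast ha2
    have h1 := abs_le.1 (hb a ha)
    push_cast at h1
    constructor
    · linarith [h1.1]
    · linarith [h1.2]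
  have hcard : (box s w v m).card < (Icc 1 A).card := by
    have h2 : ((Icc 1 A).card : ℤ) = A := by
      rw [Int.card_Icc]
      have : 0 ≤ A := by rw [hA]; positivity
      omega
    have h3 : ((box s w v m).card : ℤ) < ((Icc 1 A).card : ℤ) := by
      rw [h2, hA]
      refine lt_of_le_of_lt (card_box s w v m) ?_
      linarith
    exact_mod_cast h3
  obtain ⟨a, ha, a', ha', hne, heq⟩ :=
    Finset.exists_ne_map_eq_of_card_lt_of_maps_to hcard (f := fun a => (p a, q a))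
      (fun a ha => mem_box hw40 hw1 hs1 hs2 hm1 hm2 hkw hku hv2 (hbd a ha).1 (hbd a ha).2
        (hn a ha) (hx a ha) (hr a ha) (hq a ha) (hp a ha))
  have hpp : p a = p a' := congrArg Prod.fst heq
  have hqq : q a = q a' := congrArg Prod.snd heq
  have hxx : x a = x a' := by
    refine x_unique (r' := r a') (hx a ha) (hr a ha) (hq a ha) (hp a ha) (hx a' ha') ?_ ?_
    · rw [hqq]
      exact hq a' ha'
    · rw [hpp]
      exact hp a' ha'
  have hkR : 1600 * (w : ℝ) ^ 2 ≤ k := by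
    have h1 : (w : ℝ) ^ 4 ≤ k := by exact_mod_cast hkw
    have h2 : (40 : ℝ) ≤ w := by exact_mod_cast hw40
    have h3 : (1600 : ℝ) ≤ (w : ℝ) ^ 2 := by
      calc (1600 : ℝ) = 40 ^ 2 := by norm_num
        _ ≤ (w : ℝ) ^ 2 := pow_le_pow_left₀ (by norm_num) h2 2
    calc 1600 * (w : ℝ) ^ 2 ≤ (w : ℝ) ^ 2 * (w : ℝ) ^ 2 :=
          mul_le_mul_of_nonneg_right h3 (sq_nonneg _)
      _ = (w : ℝ) ^ 4 := by ring
      _ ≤ k := h1
  have hkR2 : (2560000 : ℝ) < k := by exact_mod_cast hk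
  have key : ∀ c d : ℤ, c ∈ Icc 1 A → d ∈ Icc 1 A → x c = x d → ¬ n c < n d := by
    intro c d hc hd hcd hlt
    have h1 : x d ^ (n c + 1) ≤ x d ^ n d :=
      pow_le_pow_right₀ (by linarith [hx d hd]) hlt
    rw [pow_succ, ← hcd] at h1
    have h2 := (hbd c hc).2
    have h3 := (hbd d hd).1
    rw [← hcd] at h3
    have h4 := hx c hc
    have h5 : 0 < x c ^ n c := pow_pos (by linarith) _
    have h6 : x c ^ n c * (5 / 4) ≤ x c ^ n c * x c := mul_le_mul_of_nonneg_left h4.le h5.le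
    linarith
  have hnn : n a = n a' := le_antisymm (not_lt.1 (key a' a ha' ha hxx.symm))
    (not_lt.1 (key a a' ha ha' hxx))
  apply hne
  rw [← hSa a ha, ← hSa a' ha', hpp, hqq, hnn]

end Pool.Agent.X4.VS
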