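import Mathlib

set_option autoImplicit false

/-! # The length of the multiples of the polynomial `x³ + a x² + b x + 1` -/

namespace Pool.Agent.X4.VS

open Polynomial Finset

/-- the length of a polynomial -/
noncomputable def len (P : ℤ[X]) : ℤ := ∑ i ∈ range (P.natDegree + 1), |P.coeff i|

theorem len_eq (P : ℤ[X]) {N : ℕ} (hN : P.natDegree < N) :
    len P = ∑ i ∈ range N, |P.coeff i| := by
  unfold len
  refine Finset.sum_subset (Finset.range_subset_range.2 hN) ?_
  intro i _ hi
  rw [Finset.mem_range, not_lt] at hi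
  rw [Polynomial.coeff_eq_zero_of_natDegree_lt (by omega), abs_zero]

theorem len_nonneg (P : ℤ[X]) : 0 ≤ len P := Finset.sum_nonneg fun _ _ => abs_nonneg _

theorem len_divX (P : ℤ[X]) : len P = |P.coeff 0| + len P.divX := by
  have h1 : P.divX.natDegree < P.natDegree + 1 := by
    rw [Polynomial.natDegree_divX_eq_natDegree_tsub_one]
    omega
  rw [len_eq P (N := P.natDegree + 2) (by omega), len_eq P.divX h1, Finset.sum_range_succ',
    add_comm]
  simp [Polynomial.coeff_divX]

theorem aeval_divX (P : ℤ[X]) (y : ℝ) : aeval y P = P.coeff 0 + y * aeval y P.divX := by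
  conv_lhs => rw [← Polynomial.divX_mul_X_add P]
  rw [map_add, map_mul, aeval_X, aeval_C]
  simp
  ring

theorem abs_aeval_le (P : ℤ[X]) {y : ℝ} (hy : |y| ≤ 1) : |aeval y P| ≤ len P := by
  rw [Polynomial.aeval_eq_sum_range, len]
  push_cast
  refine (Finset.abs_sum_le_sum_abs _ _).trans (Finset.sum_le_sum fun i _ => ?_)
  rw [zsmul_eq_mul, abs_mul, abs_pow]
  exact mul_le_of_le_one_right (abs_nonneg _) (pow_le_one₀ (abs_nonneg _) hy)

/-- the length of the multiples which do not vanish at `0` -/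
theorem len_ge_aux {a b : ℤ} (ha : 1 ≤ a) (hb : 2 * a + 3 ≤ b) {l : ℝ} (hl0 : 0 < l)
    (hl1 : l * (b - 1) < 1) (hl : 1 + a * l ^ 2 - l ^ 3 = b * l) (P : ℤ[X])
    (h0 : P.coeff 0 ≠ 0) (hP : aeval (-l) P = 0) : 2 + a + b ≤ len P := by
  by_contra hcon
  push Not at hcon
  have haR : (1 : ℝ) ≤ a := by exact_mod_cast ha
  have hbR : 2 * (a : ℝ) + 3 ≤ b := by exact_mod_cast hb
  have hl2 : l < 1 := by nlinarith
  have hy : |(-l)| ≤ 1 := by rw [abs_neg, abs_of_pos hl0]; exact hl2.le
  have e0 := aeval_divX P (-l)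
  have e1 := aeval_divX P.divX (-l)
  have e2 := aeval_divX P.divX.divX (-l)
  have l0 := len_divX P
  have l1 := len_divX P.divX
  have l2 := len_divX P.divX.divX
  have l3 := len_nonneg P.divX.divX.divX
  have b1 := abs_aeval_le P.divX hy
  have b2 := abs_aeval_le P.divX.divX hy
  have b3 := abs_aeval_le P.divX.divX.divX hy
  set c0 := P.coeff 0
  set c1 := P.divX.coeff 0
  set c2 := P.divX.divX.coeff 0
  set E1 : ℝ := aeval (-l) P.divX
  set E2 : ℝ := aeval (-l) P.divX.divX
  set E3 : ℝ := aeval (-l) P.divX.divX.divX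
  set L1 := len P.divX
  set L2 := len P.divX.divX
  set L3 := len P.divX.divX.divX
  rw [hP] at e0
  have hL : |c0| + L1 ≤ 1 + a + b := by omega
  have hc0 : 1 ≤ |c0| := Int.one_le_abs h0
  have hLR : |(c0 : ℝ)| + L1 ≤ 1 + a + b := by exact_mod_cast hL
  -- the coefficient of `1`
  have s1 : |(c0 : ℝ)| ≤ l * L1 := by
    have h1 : (c0 : ℝ) = l * E1 := by linarith
    rw [h1, abs_mul, abs_of_pos hl0]
    exact mul_le_mul_of_nonneg_left b1 hl0.le
  have hc01 : |c0| = 1 := by
    by_contra h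
    have h2 : 2 ≤ |c0| := by omega
    have h2R : (2 : ℝ) ≤ |(c0 : ℝ)| := by exact_mod_cast h2
    have h3 : l * L1 ≤ l * (a + b - 1) := mul_le_mul_of_nonneg_left (by linarith) hl0.le
    have h4 : 2 ≤ l * (a + b - 1) := by linarith
    nlinarith
  have hc01R : |(c0 : ℝ)| = 1 := by exact_mod_cast hc01
  have hL1 : L1 ≤ a + b := by omega
  -- the coefficient of `x`
  have s2 : (c1 : ℝ) - c0 * b = l * (E2 - c0 * a + c0 * l) := by
    have h1 : (c0 : ℝ) - l * c1 + l ^ 2 * E2 = 0 := by
      rw [e1] at e0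
      linear_combination -e0
    have h2 : l * ((c1 : ℝ) - c0 * b) = l * (l * (E2 - c0 * a + c0 * l)) := by
      linear_combination -h1 + c0 * hl
    exact mul_left_cancel₀ hl0.ne' h2
  have s3 : |(c1 : ℝ) - c0 * b| ≤ l * (L2 + a) := by
    rw [s2, abs_mul, abs_of_pos hl0]
    refine mul_le_mul_of_nonneg_left ?_ hl0.le
    have h1 : E2 - c0 * a + c0 * l = E2 + (-(c0 * (a - l))) := by ring
    rw [h1]
    refine (abs_add_le _ _).trans (add_le_add b2 ?_)
    rw [abs_neg, abs_mul, hc01R, one_mul, abs_of_nonneg (by linarith)]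
    linarith
  have habs : |c0 * b| = b := by
    rw [abs_mul, hc01, one_mul, abs_of_nonneg (by omega)]
  have hL2 : L2 ≤ a + b := by
    have := abs_nonneg c1
    omega
  have s4 : |c1 - c0 * b| ≤ 1 := by
    by_contra h
    have h2 : 2 ≤ |c1 - c0 * b| := by omega
    have h2R : (2 : ℝ) ≤ |(c1 : ℝ) - c0 * b| := by exact_mod_cast h2
    have h3 : (L2 : ℝ) ≤ a + b := by exact_mod_cast hL2
    have h4 : l * (L2 + a) ≤ l * (a + b + a) := mul_le_mul_of_nonneg_left (by linarith) hl0.le
    nlinarith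
  have hc1 : b - 1 ≤ |c1| := by
    have h1 : |c0 * b| ≤ |c1| + |c1 - c0 * b| := by
      have h2 := abs_sub_abs_le_abs_sub (c0 * b) c1
      rw [abs_sub_comm (c0 * b) c1] at h2
      linarith
    omega
  have hL2' : L2 ≤ a + 1 := by omega
  have s5 : c1 = c0 * b := by
    by_contra h
    have h2 : 1 ≤ |c1 - c0 * b| := Int.one_le_abs (sub_ne_zero.2 h)
    have h2R : (1 : ℝ) ≤ |(c1 : ℝ) - c0 * b| := by exact_mod_cast h2
    have h3 : (L2 : ℝ) ≤ a + 1 := by exact_mod_cast hL2'
    have h4 : l * (L2 + a) ≤ l * (a + 1 + a) := mul_le_mul_of_nonneg_left (by linarith) hl0.le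
    nlinarith
  have hc1b : |c1| = b := by rw [s5, habs]
  have hL2'' : L2 ≤ a := by omega
  -- the coefficient of `x²`
  have s6 : E2 - c0 * a + c0 * l = 0 := by
    have h1 : (c1 : ℝ) - c0 * b = 0 := by
      rw [s5]
      push_cast
      ring
    rw [h1] at s2
    rcases mul_eq_zero.1 s2.symm with h | h
    · exact absurd h hl0.ne'
    · exact h
  have s7 : (c2 : ℝ) - c0 * a = l * (E3 - c0) := by
    rw [e2] at s6
    linear_combination s6
  have hL3 : L3 ≤ a := by
    have := abs_nonneg c2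
    omega
  have s8 : c2 = c0 * a := by
    by_contra h
    have h2 : 1 ≤ |c2 - c0 * a| := Int.one_le_abs (sub_ne_zero.2 h)
    have h2R : (1 : ℝ) ≤ |(c2 : ℝ) - c0 * a| := by exact_mod_cast h2
    have h3 : (L3 : ℝ) ≤ a := by exact_mod_cast hL3
    have h4 : |E3 - c0| ≤ a + 1 := by
      refine (abs_sub _ _).trans ?_
      rw [hc01R]
      linarith
    rw [s7, abs_mul, abs_of_pos hl0] at h2R
    have h5 : l * |E3 - c0| ≤ l * (a + 1) := mul_le_mul_of_nonneg_left h4 hl0.le
    nlinarith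
  have hc2a : |c2| = a := by
    rw [s8, abs_mul, hc01, one_mul, abs_of_nonneg (by omega)]
  have hL30 : L3 = 0 := by omega
  have hE3 : E3 = 0 := by
    rw [hL30] at b3
    exact abs_eq_zero.1 (le_antisymm (by simpa using b3) (abs_nonneg _))
  have h9 : (c2 : ℝ) - c0 * a = 0 := by
    rw [s8]
    push_cast
    ring
  rw [h9, hE3, zero_sub] at s7
  rcases mul_eq_zero.1 s7.symm with h | h
  · exact hl0.ne' h
  · have h10 : (c0 : ℝ) = 0 := by linarith
    exact h0 (by exact_mod_cast h10)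

/-- **The length of the multiples.** -/
theorem len_ge {a b : ℤ} (ha : 1 ≤ a) (hb : 2 * a + 3 ≤ b) {l : ℝ} (hl0 : 0 < l)
    (hl1 : l * (b - 1) < 1) (hl : 1 + a * l ^ 2 - l ^ 3 = b * l) (n : ℕ) :
    ∀ P : ℤ[X], P.natDegree ≤ n → P ≠ 0 → aeval (-l) P = 0 → 2 + a + b ≤ len P := by
  induction n with
  | zero =>
    intro P hn h0 hP
    refine len_ge_aux ha hb hl0 hl1 hl P ?_ hP
    intro h
    apply h0
    rw [Polynomial.eq_C_of_natDegree_le_zero hn, h, map_zero]
  | succ n ih =>
    intro P hn h0 hP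
    by_cases h : P.coeff 0 = 0
    · have h1 := Polynomial.divX_mul_X_add P
      rw [h, map_zero, add_zero] at h1
      have h2 : P.divX ≠ 0 := by
        intro h3
        rw [h3, zero_mul] at h1
        exact h0 h1.symm
      have h3 := ih P.divX (by
        rw [Polynomial.natDegree_divX_eq_natDegree_tsub_one]
        omega) h2 (by
        have h4 := aeval_divX P (-l)
        rw [h, hP] at h4
        have h5 : -l * aeval (-l) P.divX = 0 := by
          rw [h4]
          simp
        exact (mul_eq_zero.1 h5).resolve_left (neg_ne_zero.2 hl0.ne'))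
      rw [len_divX, h, abs_zero, zero_add]
      exact h3
    · exact len_ge_aux ha hb hl0 hl1 hl P h hP

/-- the length of a sum of signed monomials -/
theorem len_sum_le {ι : Type} (s : Finset ι) (e : ι → ℤ) (he : ∀ i, |e i| ≤ 1) (m : ι → ℕ) :
    len (∑ i ∈ s, C (e i) * X ^ m i) ≤ s.card := by
  classical
  set P : ℤ[X] := ∑ i ∈ s, C (e i) * X ^ m i with hP
  have h1 : ∀ j, P.coeff j = ∑ i ∈ s, if j = m i then e i else 0 := by
    intro j
    rw [hP, Polynomial.finset_sum_coeff]
    exact Finset.sum_congr rfl fun i _ => Polynomial.coeff_C_mul_X_pow _ _ _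
  obtain ⟨N, hN1, hN2⟩ : ∃ N, P.natDegree < N ∧ ∀ i ∈ s, m i < N := by
    refine ⟨P.natDegree + 1 + s.sup m + 1, by omega, fun i hi => ?_⟩
    have := Finset.le_sup (f := m) hi
    omega
  rw [len_eq P hN1]
  calc ∑ j ∈ range N, |P.coeff j| ≤ ∑ j ∈ range N, ∑ i ∈ s, if j = m i then (1 : ℤ) else 0 := by
        refine Finset.sum_le_sum fun j _ => ?_
        rw [h1]
        refine (Finset.abs_sum_le_sum_abs _ _).trans (Finset.sum_le_sum fun i _ => ?_)
        split_ifs with h
        · exact he i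
        · simp
    _ = ∑ i ∈ s, ∑ j ∈ range N, if j = m i then (1 : ℤ) else 0 := Finset.sum_comm
    _ = ∑ i ∈ s, (1 : ℤ) := by
        refine Finset.sum_congr rfl fun i hi => ?_
        rw [Finset.sum_ite_eq', if_pos (Finset.mem_range.2 (hN2 i hi))]
    _ = s.card := by simp

end Pool.Agent.X4.VS
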