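import Mathlib
import Pool.Agent.X4.VS.Len

set_option autoImplicit false

/-! # The shortest vanishing sum of units -/

namespace Pool.Agent.X4.VS

open Finset NumberField Module

/-- the least odd length of a vanishing sum of units -/
noncomputable def od (K : Type) [Field K] [NumberField K] : ℕ∞ :=
  ⨅ (k : ℕ) (_ : Odd k ∧ 3 ≤ k ∧ ∃ ε : Fin k → (𝓞 K)ˣ, ∑ i, (ε i : 𝓞 K) = 0), (k : ℕ∞)

/-- the least even length of a vanishing sum of units without vanishing subsum -/
noncomputable def ev (K : Type) [Field K] [NumberField K] : ℕ∞ :=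
  ⨅ (k : ℕ) (_ : Even k ∧ 4 ≤ k ∧ ∃ ε : Fin k → (𝓞 K)ˣ, ∑ i, (ε i : 𝓞 K) = 0 ∧
    ∀ I : Finset (Fin k), I.Nonempty → I ≠ univ → ∑ i ∈ I, (ε i : 𝓞 K) ≠ 0), (k : ℕ∞)

/-- the length of the shortest vanishing sum of units without vanishing subsum -/
noncomputable def ell (K : Type) [Field K] [NumberField K] : ℕ∞ := min (od K) (ev K)

section

variable {K : Type} [Field K] [NumberField K]

/-- **The lower bound.** -/
theorem lower (φ : K →+* ℝ) {a b : ℤ} (ha : 1 ≤ a) (hb : 2 * a + 3 ≤ b) {l : ℝ} (hl0 : 0 < l)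
    (hl1 : l * (b - 1) < 1) (hl : 1 + a * l ^ 2 - l ^ 3 = b * l) (α : (𝓞 K)ˣ)
    (hα : φ (α : 𝓞 K) = -l) (hgen : ∀ u : (𝓞 K)ˣ, ∃ m : ℤ, u = α ^ m ∨ u = -α ^ m)
    {k : ℕ} (ε : Fin k → (𝓞 K)ˣ) (hsum : ∑ i, (ε i : 𝓞 K) = 0)
    (hk : Odd k ∨ (3 ≤ k ∧
      ∀ I : Finset (Fin k), I.Nonempty → I ≠ univ → ∑ i ∈ I, (ε i : 𝓞 K) ≠ 0)) :
    2 + a + b ≤ k := by
  classical
  have hrep : ∀ u : (𝓞 K)ˣ, ∃ (m : ℤ) (s : ℤ), (s = 1 ∨ s = -1) ∧
      (u : 𝓞 K) = (s : 𝓞 K) * ((α ^ m : (𝓞 K)ˣ) : 𝓞 K) := by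
    intro u
    obtain ⟨m, h | h⟩ := hgen u
    · refine ⟨m, 1, Or.inl rfl, ?_⟩
      rw [h]
      simp
    · refine ⟨m, -1, Or.inr rfl, ?_⟩
      rw [h, Units.val_neg]
      simp
  choose m s hs hε using fun i => hrep (ε i)
  obtain ⟨M, hM⟩ : ∃ M : ℕ, ∀ i, 0 ≤ m i + M := by
    refine ⟨∑ i, (m i).natAbs, fun i => ?_⟩
    have h1 := Finset.single_le_sum (f := fun i => (m i).natAbs) (fun _ _ => Nat.zero_le _)
      (Finset.mem_univ i)
    have h2 : -(m i) ≤ ((m i).natAbs : ℤ) := by omega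
    have h3 : ((m i).natAbs : ℤ) ≤ ((∑ i, (m i).natAbs : ℕ) : ℤ) := by exact_mod_cast h1
    linarith
  let n : Fin k → ℕ := fun i => (m i + M).toNat
  have hn : ∀ i, (n i : ℤ) = m i + M := fun i => Int.toNat_of_nonneg (hM i)
  set P : Polynomial ℤ := ∑ i, Polynomial.C (s i) * Polynomial.X ^ n i with hP
  have habs : ∀ i, |s i| ≤ 1 := by
    intro i
    rcases hs i with h | h <;> rw [h] <;> norm_num
  have hlen := len_sum_le univ s habs n
  rw [← hP, Finset.card_univ, Fintype.card_fin] at hlen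
  have hne : -l ≠ 0 := neg_ne_zero.2 hl0.ne'
  have hval : ∀ i, φ (ε i : 𝓞 K) = s i * (-l) ^ m i := by
    intro i
    have h1 : (((ε i : (𝓞 K)ˣ) : 𝓞 K) : K) = (s i : K) * ((α : 𝓞 K) : K) ^ m i := by
      rw [hε i]
      show algebraMap (𝓞 K) K _ = _
      rw [map_mul, map_intCast]
      congr 1
      exact NumberField.Units.coe_zpow α (m i)
    rw [h1, map_mul, map_intCast, map_zpow₀, hα]
  have heval : Polynomial.aeval (-l) P = 0 := by
    have h1 : Polynomial.aeval (-l) P = ∑ i, (s i : ℝ) * (-l) ^ n i := by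
      rw [hP, map_sum]
      refine Finset.sum_congr rfl fun i _ => ?_
      rw [map_mul, Polynomial.aeval_C, map_pow, Polynomial.aeval_X]
      simp
    have h2 : ∀ i, (s i : ℝ) * (-l) ^ n i = (-l) ^ M * φ (ε i : 𝓞 K) := by
      intro i
      rw [hval]
      have h3 : (-l) ^ n i = (-l) ^ M * (-l) ^ m i := by
        rw [← zpow_natCast (-l) (n i), ← zpow_natCast (-l) M, ← zpow_add₀ hne, hn, add_comm]
      rw [h3]
      ring
    rw [h1, Finset.sum_congr rfl fun i _ => h2 i, ← Finset.mul_sum, ← map_sum]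
    have h4 : ∑ i, ((ε i : 𝓞 K) : K) = 0 := by
      have h5 := congrArg (algebraMap (𝓞 K) K) hsum
      rw [map_sum, map_zero] at h5
      exact h5
    rw [h4, map_zero, mul_zero]
  by_cases hP0 : P = 0
  · exfalso
    have hcoeff : ∀ j, ∑ i, (if j = n i then s i else 0) = 0 := by
      intro j
      have h1 : P.coeff j = ∑ i, if j = n i then s i else 0 := by
        rw [hP, Polynomial.finsetSum_coeff]
        exact Finset.sum_congr rfl fun i _ => Polynomial.coeff_C_mul_X_pow _ _ _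
      rw [← h1, hP0, Polynomial.coeff_zero]
    rcases hk with hodd | ⟨hk3, hno⟩
    · have h1 : ∑ i, s i = 0 := by
        have h2 : Polynomial.eval 1 P = ∑ i, s i := by
          rw [hP, Polynomial.eval_finsetSum]
          refine Finset.sum_congr rfl fun i _ => ?_
          simp
        rw [← h2, hP0, Polynomial.eval_zero]
      have h3 : ((∑ i, s i : ℤ) : ZMod 2) = k := by
        push_cast
        have h4 : ∀ i, ((s i : ℤ) : ZMod 2) = 1 := by
          intro i
          rcases hs i with h | h <;> rw [h]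
          · simp
          · decide
        rw [Finset.sum_congr rfl fun i _ => h4 i]
        simp
      rw [h1, Int.cast_zero] at h3
      have h4 : Even k := (ZMod.natCast_eq_zero_iff_even).1 h3.symm
      exact (Nat.not_even_iff_odd.2 hodd) h4
    · -- all exponents are equal
      have hk0 : 0 < k := by omega
      let i0 : Fin k := ⟨0, hk0⟩
      have hsub : ∀ j, ∑ i ∈ univ.filter (fun i => j = n i), s i = 0 := by
        intro j
        rw [Finset.sum_filter]
        exact hcoeff j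
      have hI : univ.filter (fun i => n i0 = n i) = univ := by
        by_contra hne'
        refine hno (univ.filter (fun i => n i0 = n i))
          ⟨i0, Finset.mem_filter.2 ⟨Finset.mem_univ _, rfl⟩⟩ hne' ?_
        have h1 : ∀ i ∈ univ.filter (fun i => n i0 = n i),
            (ε i : 𝓞 K) = (s i : 𝓞 K) * ((α ^ m i0 : (𝓞 K)ˣ) : 𝓞 K) := by
          intro i hi
          have h2 := (Finset.mem_filter.1 hi).2
          have h3 : m i0 = m i := by
            have h4 := hn i0
            have h5 := hn i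
            rw [h2] at h4
            omega
          rw [hε i, h3]
        rw [Finset.sum_congr rfl h1, ← Finset.sum_mul, ← Int.cast_sum, hsub, Int.cast_zero,
          zero_mul]
      have heq : ∀ i, m i = m i0 := by
        intro i
        have h1 : i ∈ univ.filter (fun i => n i0 = n i) := by
          rw [hI]
          exact Finset.mem_univ _
        have h2 := (Finset.mem_filter.1 h1).2
        have h4 := hn i0
        have h5 := hn i
        rw [h2] at h4
        omega
      have hs0 : ∑ i, s i = 0 := by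
        have := hsub (n i0)
        rwa [hI] at this
      -- two opposite signs
      obtain ⟨i1, i2, h1, h2⟩ : ∃ i1 i2, s i1 = 1 ∧ s i2 = -1 := by
        by_contra hcon
        push Not at hcon
        by_cases h : ∃ i1, s i1 = 1
        · obtain ⟨i1, hi1⟩ := h
          have h3 : ∀ i, s i = 1 := fun i => (hs i).resolve_right (hcon i1 i hi1)
          rw [Finset.sum_congr rfl fun i _ => h3 i] at hs0
          simp at hs0
          omega
        · push Not at h
          have h3 : ∀ i, s i = -1 := fun i => (hs i).resolve_left (h i)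
          rw [Finset.sum_congr rfl fun i _ => h3 i] at hs0
          simp at hs0
          omega
      have h12 : i1 ≠ i2 := by
        rintro rfl
        rw [h1] at h2
        norm_num at h2
      refine hno {i1, i2} ⟨i1, by simp⟩ ?_ ?_
      · intro h3
        have h4 := congrArg Finset.card h3
        rw [Finset.card_pair h12, Finset.card_univ, Fintype.card_fin] at h4
        omega
      · rw [Finset.sum_pair h12, hε i1, hε i2, heq i1, heq i2, h1, h2]
        simp
  · have h1 := len_ge ha hb hl0 hl1 hl P.natDegree P le_rfl hP0 heval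
    omega

/-- **The shortest vanishing sum.** -/
theorem upper (φ : K →+* ℝ) {a b : ℤ} (ha : 1 ≤ a) (hb : 2 * a + 3 ≤ b) {l : ℝ} (hl0 : 0 < l)
    (hl1 : l * (b - 1) < 1) (hl : 1 + a * l ^ 2 - l ^ 3 = b * l) (α : (𝓞 K)ˣ)
    (hα : φ (α : 𝓞 K) = -l)
    (hrel : (α : 𝓞 K) ^ 3 + (a : 𝓞 K) * (α : 𝓞 K) ^ 2 + (b : 𝓞 K) * (α : 𝓞 K) + 1 = 0) {k : ℕ}
    (hk : (k : ℤ) = 2 + a + b) :
    ∃ ε : Fin k → (𝓞 K)ˣ, ∑ i, (ε i : 𝓞 K) = 0 ∧
      ∀ I : Finset (Fin k), I.Nonempty → I ≠ univ → ∑ i ∈ I, (ε i : 𝓞 K) ≠ 0 := by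
  classical
  obtain ⟨A, hA⟩ : ∃ A : ℕ, (A : ℤ) = a := ⟨a.toNat, by omega⟩
  obtain ⟨B, hB⟩ : ∃ B : ℕ, (B : ℤ) = b := ⟨b.toNat, by omega⟩
  let ι := (Fin 1 ⊕ Fin B) ⊕ (Fin A ⊕ Fin 1)
  let e : ι → ℕ := Sum.elim (Sum.elim (fun _ => 0) (fun _ => 1)) (Sum.elim (fun _ => 2) (fun _ => 3))
  have hcard : Fintype.card ι = k := by
    simp only [ι, Fintype.card_sum, Fintype.card_fin]
    omega
  have hsumι : ∑ i : ι, ((α ^ e i : (𝓞 K)ˣ) : 𝓞 K) = 0 := by
    rw [Fintype.sum_sum_type, Fintype.sum_sum_type, Fintype.sum_sum_type]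
    simp only [e, Sum.elim_inl, Sum.elim_inr, Finset.sum_const, Finset.card_univ, Fintype.card_fin,
      nsmul_eq_mul, Units.val_pow_eq_pow_val]
    have hA' : (A : 𝓞 K) = a := by rw [← hA]; simp
    have hB' : (B : 𝓞 K) = b := by rw [← hB]; simp
    rw [hA', hB']
    push_cast
    linear_combination hrel
  have hval : ∀ j : ℕ, φ ((α ^ j : (𝓞 K)ˣ) : 𝓞 K) = (-l) ^ j := by
    intro j
    rw [Units.val_pow_eq_pow_val]
    show φ (algebraMap (𝓞 K) K ((α : 𝓞 K) ^ j)) = _
    rw [map_pow, map_pow]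
    congr 1
  have hno : ∀ I : Finset ι, I.Nonempty → ∑ i ∈ I, ((α ^ e i : (𝓞 K)ˣ) : 𝓞 K) = 0 →
      I = univ := by
    intro I hI h
    set P : Polynomial ℤ := ∑ i ∈ I, Polynomial.C 1 * Polynomial.X ^ e i with hP
    have hlen := len_sum_le I (fun _ => 1) (fun _ => by norm_num) e
    rw [← hP] at hlen
    have hP0 : P ≠ 0 := by
      intro h0
      have h2 : Polynomial.eval 1 P = I.card := by
        rw [hP, Polynomial.eval_finsetSum]
        simp
      rw [h0, Polynomial.eval_zero] at h2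
      have := hI.card_pos
      omega
    have heval : Polynomial.aeval (-l) P = 0 := by
      have h1 : Polynomial.aeval (-l) P = ∑ i ∈ I, (-l) ^ e i := by
        rw [hP, map_sum]
        refine Finset.sum_congr rfl fun i _ => ?_
        rw [map_mul, Polynomial.aeval_C, map_pow, Polynomial.aeval_X]
        simp
      rw [h1, ← Finset.sum_congr rfl fun i _ => hval (e i), ← map_sum]
      have h4 : ∑ i ∈ I, (((α ^ e i : (𝓞 K)ˣ) : 𝓞 K) : K) = 0 := by
        have h5 := congrArg (algebraMap (𝓞 K) K) h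
        rw [map_sum, map_zero] at h5
        exact h5
      rw [h4, map_zero]
    have h1 := len_ge ha hb hl0 hl1 hl P.natDegree P le_rfl hP0 heval
    apply Finset.eq_univ_of_card
    rw [hcard]
    have h2 : I.card ≤ Fintype.card ι := Finset.card_le_univ I
    rw [hcard] at h2
    omega
  let E : Fin k ≃ ι := (Fintype.equivFinOfCardEq hcard).symm
  refine ⟨fun i => α ^ e (E i), ?_, ?_⟩
  · rw [← hsumι]
    exact Equiv.sum_comp E (fun i => ((α ^ e i : (𝓞 K)ˣ) : 𝓞 K))
  · intro I hI hne h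
    apply hne
    have h1 := hno (I.map E.toEmbedding) (hI.map) (by
      rw [Finset.sum_map]
      exact h)
    apply Finset.eq_univ_of_card
    rw [← Finset.card_map E.toEmbedding, h1, Finset.card_univ, hcard, Fintype.card_fin]

/-- **The value.** -/
theorem ell_eq (φ : K →+* ℝ) {a b : ℤ} (ha : 1 ≤ a) (hb : 2 * a + 3 ≤ b) {l : ℝ} (hl0 : 0 < l)
    (hl1 : l * (b - 1) < 1) (hl : 1 + a * l ^ 2 - l ^ 3 = b * l) (α : (𝓞 K)ˣ)
    (hα : φ (α : 𝓞 K) = -l)
    (hrel : (α : 𝓞 K) ^ 3 + (a : 𝓞 K) * (α : 𝓞 K) ^ 2 + (b : 𝓞 K) * (α : 𝓞 K) + 1 = 0)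
    (hgen : ∀ u : (𝓞 K)ˣ, ∃ m : ℤ, u = α ^ m ∨ u = -α ^ m) {k : ℕ}
    (hk : (k : ℤ) = 2 + a + b) : ell K = k := by
  apply le_antisymm
  · obtain ⟨ε, h1, h2⟩ := upper φ ha hb hl0 hl1 hl α hα hrel hk
    rcases Nat.even_or_odd k with he | ho
    · refine (min_le_right _ _).trans ?_
      exact iInf₂_le k ⟨he, by omega, ε, h1, h2⟩
    · refine (min_le_left _ _).trans ?_
      exact iInf₂_le k ⟨ho, by omega, ε, h1⟩
  · refine le_min ?_ ?_
    · refine le_iInf₂ fun j hj => ?_
      obtain ⟨ho, h3, ε, h1⟩ := hj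
      have h2 := lower φ ha hb hl0 hl1 hl α hα hgen ε h1 (Or.inl ho)
      have h4 : k ≤ j := by omega
      exact_mod_cast h4
    · refine le_iInf₂ fun j hj => ?_
      obtain ⟨he, h3, ε, h1, h5⟩ := hj
      have h2 := lower φ ha hb hl0 hl1 hl α hα hgen ε h1 (Or.inr ⟨by omega, h5⟩)
      have h4 : k ≤ j := by omega
      exact_mod_cast h4

end

end Pool.Agent.X4.VS
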