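import Mathlib

set_option autoImplicit false

/-! # The complex cubic fields -/

namespace Pool.Agent.X4.VS

open NumberField Module Polynomial

/-- the cubic polynomial -/
noncomputable def cub (a b : ℤ) : ℚ[X] := X ^ 3 + C (a : ℚ) * X ^ 2 + C (b : ℚ) * X + 1

theorem cub_natDegree (a b : ℤ) : (cub a b).natDegree = 3 := by
  unfold cub
  compute_degree!

theorem cub_monic (a b : ℤ) : (cub a b).Monic := by
  unfold cub
  monicity!

theorem cub_eval₂ (a b : ℤ) {R : Type} [CommRing R] (f : ℚ →+* R) (r : R) :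
    (cub a b).eval₂ f r = r ^ 3 + a * r ^ 2 + b * r + 1 := by
  unfold cub
  simp only [eval₂_add, eval₂_mul, eval₂_pow, eval₂_X, eval₂_C, eval₂_one]
  rw [map_intCast, map_intCast]

theorem int_eval₂ (a b : ℤ) {R : Type} [CommRing R] (f : ℤ →+* R) (r : R) :
    (X ^ 3 + C a * X ^ 2 + C b * X + 1 : ℤ[X]).eval₂ f r = r ^ 3 + a * r ^ 2 + b * r + 1 := by
  simp only [eval₂_add, eval₂_mul, eval₂_pow, eval₂_X, eval₂_C, eval₂_one]
  rw [eq_intCast, eq_intCast]

theorem int_root {a b : ℤ} (ha : 1 ≤ a) (hb : 2 * a + 3 ≤ b) (n : ℤ)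
    (h : n ^ 3 + a * n ^ 2 + b * n + 1 = 0) : False := by
  have h1 : n * (-(n ^ 2 + a * n + b)) = 1 := by linear_combination -h
  have h2 : IsUnit n := IsUnit.of_mul_eq_one _ h1
  rcases Int.isUnit_iff.1 h2 with h3 | h3
  · rw [h3] at h
    omega
  · rw [h3] at h
    omega

theorem cub_irreducible {a b : ℤ} (ha : 1 ≤ a) (hb : 2 * a + 3 ≤ b) :
    Irreducible (cub a b) := by
  rw [(cub_monic a b).irreducible_iff_roots_eq_zero_of_degree_le_three
    (by rw [cub_natDegree]; norm_num) (by rw [cub_natDegree])]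
  rw [Multiset.eq_zero_iff_forall_notMem]
  intro r hr
  have h1 : (cub a b).IsRoot r := (mem_roots (cub_monic a b).ne_zero).1 hr
  have h2 : r ^ 3 + a * r ^ 2 + b * r + 1 = 0 := by
    have h3 : (cub a b).eval r = 0 := h1
    unfold cub at h3
    simpa using h3
  have h3 : IsIntegral ℤ r := by
    refine ⟨X ^ 3 + C a * X ^ 2 + C b * X + 1, by monicity!, ?_⟩
    rw [int_eval₂]
    exact h2
  obtain ⟨n, hn⟩ := IsIntegrallyClosed.isIntegral_iff.1 h3
  have hn' : (n : ℚ) = r := hn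
  rw [← hn'] at h2
  exact int_root ha hb n (by exact_mod_cast h2)

/-- the real root -/
theorem exists_root {a b : ℤ} (ha : 1 ≤ a) (hb : 2 * a + 3 ≤ b) :
    ∃ l : ℝ, 0 < l ∧ l * (b - 1) < 1 ∧ 1 + a * l ^ 2 - l ^ 3 = b * l := by
  have haR : (1 : ℝ) ≤ a := by exact_mod_cast ha
  have hbR : 2 * (a : ℝ) + 3 ≤ b := by exact_mod_cast hb
  set g : ℝ → ℝ := fun y => 1 + a * y ^ 2 - y ^ 3 - b * y with hg
  have hcont : Continuous g := by
    rw [hg]
    fun_prop
  set c : ℝ := 1 / (b - 1) with hc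
  have hb1 : (0 : ℝ) < b - 1 := by linarith
  have hc0 : 0 < c := by positivity
  have hcb : c * (b - 1) = 1 := by
    rw [hc]
    field_simp
  have hgc : g c < 0 := by
    have h1 : g c = -c + a * c ^ 2 - c ^ 3 := by
      simp only [hg]
      linear_combination -hcb
    rw [h1]
    have h2 : a * c ^ 2 ≤ c := by
      have h3 : a * c ≤ 1 := by nlinarith
      nlinarith
    have h3 : 0 < c ^ 3 := by positivity
    linarith
  have hg0 : 0 < g 0 := by
    simp [hg]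
  obtain ⟨l, hl, hgl⟩ := intermediate_value_Icc' hc0.le hcont.continuousOn
    (Set.mem_Icc.2 ⟨hgc.le, hg0.le⟩)
  have h1 : l ≠ 0 := by
    rintro rfl
    rw [hgl] at hg0
    exact lt_irrefl _ hg0
  have h2 : l ≠ c := by
    intro h
    rw [← h, hgl] at hgc
    exact lt_irrefl _ hgc
  have hl0 : 0 < l := lt_of_le_of_ne hl.1 (Ne.symm h1)
  have hlc : l < c := lt_of_le_of_ne hl.2 h2
  refine ⟨l, hl0, ?_, ?_⟩
  · exact (mul_lt_mul_of_pos_right hlc hb1).trans_eq hcb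
  · simp only [hg] at hgl
    linarith

/-- **The field.** -/
theorem exists_field {a b : ℤ} (ha : 1 ≤ a) (hb : 2 * a + 3 ≤ b) (hab : a ^ 2 < 3 * b) :
    ∃ (K : Type) (_ : Field K) (_ : NumberField K) (φ : K →+* ℝ) (ψ : K →+* ℂ) (α : (𝓞 K)ˣ)
      (l : ℝ), finrank ℚ K = 3 ∧ (∃ y, (ψ y).im ≠ 0) ∧ 0 < l ∧ l * (b - 1) < 1 ∧
      1 + a * l ^ 2 - l ^ 3 = b * l ∧ φ (α : 𝓞 K) = -l ∧ 2 * (ψ (α : 𝓞 K)).re = l - a ∧
      (α : 𝓞 K) ^ 3 + (a : 𝓞 K) * (α : 𝓞 K) ^ 2 + (b : 𝓞 K) * (α : 𝓞 K) + 1 = 0 := by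
  have haR : (1 : ℝ) ≤ a := by exact_mod_cast ha
  have hbR : 2 * (a : ℝ) + 3 ≤ b := by exact_mod_cast hb
  have habR : (a : ℝ) ^ 2 < 3 * b := by exact_mod_cast hab
  obtain ⟨l, hl0, hl1, hl⟩ := exists_root ha hb
  have hirr := cub_irreducible ha hb
  have hfact : Fact (Irreducible (cub a b)) := ⟨hirr⟩
  let K : Type := AdjoinRoot (cub a b)
  let _ : Field K := AdjoinRoot.instField
  let pb : PowerBasis ℚ K := AdjoinRoot.powerBasis hirr.ne_zero
  have hfin : FiniteDimensional ℚ K := pb.finite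
  have hchar : CharZero K := algebraRat.charZero K
  let _ : NumberField K := { to_charZero := hchar, to_finiteDimensional := hfin }
  have h3 : finrank ℚ K = 3 := by
    rw [pb.finrank, AdjoinRoot.powerBasis_dim, cub_natDegree]
  -- the embeddings
  have hφ : (cub a b).eval₂ (algebraMap ℚ ℝ) (-l) = 0 := by
    rw [cub_eval₂]
    linear_combination hl
  let φ : K →+* ℝ := AdjoinRoot.lift (algebraMap ℚ ℝ) (-l) hφ
  set D : ℝ := 4 * (l ^ 2 - a * l + b) - (a - l) ^ 2 with hD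
  have hl2 : l < 1 := by nlinarith
  have hD0 : 0 < D := by
    have h1 : 2 * (a : ℝ) * l < 1 := by nlinarith
    have h2 : D = 4 * b - a ^ 2 - 2 * a * l + 3 * l ^ 2 := by rw [hD]; ring
    rw [h2]
    nlinarith [sq_nonneg l]
  set s : ℝ := Real.sqrt D with hs
  have hs0 : 0 < s := Real.sqrt_pos.2 hD0
  have hs2 : s ^ 2 = D := Real.sq_sqrt hD0.le
  set w : ℂ := ⟨(l - a) / 2, s / 2⟩ with hw
  have hw2 : w ^ 2 + ((a - l : ℝ) : ℂ) * w + ((l ^ 2 - a * l + b : ℝ) : ℂ) = 0 := by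
    apply Complex.ext
    · rw [hw]
      simp [pow_two, Complex.add_re, Complex.mul_re]
      nlinarith
    · rw [hw]
      simp [pow_two, Complex.add_im, Complex.mul_im]
      ring
  have hψ : (cub a b).eval₂ (algebraMap ℚ ℂ) w = 0 := by
    rw [cub_eval₂]
    have hlC : (1 : ℂ) + a * (l : ℂ) ^ 2 - (l : ℂ) ^ 3 = b * (l : ℂ) := by exact_mod_cast hl
    push_cast at hw2
    linear_combination (w + l) * hw2 + hlC
  let ψ : K →+* ℂ := AdjoinRoot.lift (algebraMap ℚ ℂ) w hψ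
  have hφr : φ (AdjoinRoot.root (cub a b)) = -l := AdjoinRoot.lift_root hφ
  have hψr : ψ (AdjoinRoot.root (cub a b)) = w := AdjoinRoot.lift_root hψ
  -- the unit
  obtain ⟨θ, hθ⟩ : ∃ θ : K, θ = AdjoinRoot.root (cub a b) := ⟨_, rfl⟩
  have hrelK : θ ^ 3 + (a : K) * θ ^ 2 + (b : K) * θ + 1 = 0 := by
    have h1 : (cub a b).eval₂ (AdjoinRoot.of (cub a b)) (AdjoinRoot.root (cub a b)) = 0 :=
      AdjoinRoot.eval₂_root _
    rw [cub_eval₂] at h1
    rw [hθ]
    exact h1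
  have hint : IsIntegral ℤ θ := by
    refine ⟨X ^ 3 + C a * X ^ 2 + C b * X + 1, by monicity!, ?_⟩
    rw [int_eval₂]
    exact hrelK
  let α0 : 𝓞 K := ⟨θ, hint⟩
  have hrel : α0 ^ 3 + (a : 𝓞 K) * α0 ^ 2 + (b : 𝓞 K) * α0 + 1 = 0 := by
    apply RingOfIntegers.ext
    show algebraMap (𝓞 K) K _ = algebraMap (𝓞 K) K 0
    rw [map_add, map_add, map_add, map_mul, map_mul, map_pow, map_pow, map_intCast, map_intCast,
      map_one, map_zero]
    exact hrelK
  have hunit : α0 * (-(α0 ^ 2 + (a : 𝓞 K) * α0 + (b : 𝓞 K))) = 1 := by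
    linear_combination -hrel
  refine ⟨K, inferInstance, inferInstance, φ, ψ, Units.mkOfMulEqOne _ _ hunit, l, h3,
    ⟨AdjoinRoot.root (cub a b), ?_⟩, hl0, hl1, hl, ?_, ?_, ?_⟩
  · rw [hψr]
    exact (by positivity : (0 : ℝ) < s / 2).ne'
  · show φ θ = -l
    rw [hθ]
    exact hφr
  · show 2 * (ψ θ).re = l - a
    rw [hθ, hψr]
    show 2 * ((l - a) / 2) = l - a
    ring
  · exact hrel

end Pool.Agent.X4.VS
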