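import Mathlib
import Pool.Agent.X4.VS.Fund
import Pool.Agent.X4.VS.Bds

set_option autoImplicit false

/-! # The small cases -/

namespace Pool.Agent.X4.VS

/-- the check of the power sums -/
def chk (p q : ℤ) : ℕ → ℤ → ℤ → ℤ → ℤ → ℤ → ℤ → Bool
  | 0, _, _, _, _, _, _ => true
  | (f + 1), s0, s1, s2, t0, t1, t2 =>
    (decide (s2 ≠ 1) || decide (t2 < 7) || decide (t2 = 10)) &&
      chk p q f s1 s2 (p * s2 - q * s1 + s0) t1 t2 (q * t2 - p * t1 + t0)

theorem chk_sound (p q : ℤ) (f : ℕ) : ∀ m : ℕ,
    chk p q f (S p q m) (S p q (m + 1)) (S p q (m + 2)) (S q p m) (S q p (m + 1))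
      (S q p (m + 2)) = true →
    ∀ j < f, S p q (m + 2 + j) = 1 → S q p (m + 2 + j) < 7 ∨ S q p (m + 2 + j) = 10 := by
  induction f with
  | zero => intro m _ j hj; omega
  | succ f ih =>
    intro m h j hj h1
    rw [chk, Bool.and_eq_true] at h
    obtain ⟨h2, h3⟩ := h
    rcases Nat.eq_zero_or_pos j with rfl | hj0
    · rw [add_zero] at h1 ⊢
      simp only [h1, ne_eq, not_true_eq_false, decide_false, Bool.false_or, Bool.or_eq_true,
        decide_eq_true_eq] at h2
      exact h2
    · have h4 := ih (m + 1) (by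
        show chk p q f (S p q (m + 1)) (S p q (m + 2)) (S p q (m + 3)) (S q p (m + 1))
          (S q p (m + 2)) (S q p (m + 3)) = true
        rw [S, S]
        exact h3) (j - 1) (by omega)
      have h5 : m + 1 + 2 + (j - 1) = m + 2 + j := by omega
      rw [h5] at h4
      exact h4 h1

theorem chk_all : ((List.range 21).all fun q => (List.range 19).all fun p =>
    chk ((p : ℤ) - 9) q 61 (S ((p : ℤ) - 9) q 3) (S ((p : ℤ) - 9) q 4) (S ((p : ℤ) - 9) q 5)
      (S q ((p : ℤ) - 9) 3) (S q ((p : ℤ) - 9) 4) (S q ((p : ℤ) - 9) 5)) = true := by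
  decide +kernel

theorem small {b : ℤ} (hb7 : 7 ≤ b) (hbodd : ¬ (2 : ℤ) ∣ b) (hb : b ≤ 2458735) : ¬ Data 1 b := by
  rintro ⟨n, p, q, x, r, hn, hx, hr, hq, hp, hbx, hSa, hSb⟩
  have hx0 : 0 < x := by linarith
  have hbR : (b : ℝ) ≤ 2458735 := by exact_mod_cast hb
  have hxn : x ^ n ≤ 2458737 := by
    have := (abs_le.1 hbx).1
    linarith
  by_cases hn2 : n = 2
  · rw [hn2] at hSa hSb
    simp only [S] at hSa hSb
    rcases Int.even_or_odd' p with ⟨j, hj | hj⟩
    · rw [hj] at hSa
      ring_nf at hSa
      omega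
    · have h1 : q = 2 * (j ^ 2 + j) := by
        rw [hj] at hSa
        ring_nf at hSa ⊢
        omega
      apply hbodd
      rw [← hSb, h1]
      exact ⟨2 * (j ^ 2 + j) ^ 2 - p, by ring⟩
  · by_cases hn3 : n = 3
    · rw [hn3] at hSa hSb
      simp only [S] at hSa hSb
      have h1 : p * (3 * q - p ^ 2) = 2 := by linear_combination -hSa
      have h2 : p ∣ 2 := ⟨_, h1.symm⟩
      have h3 : p ≤ 2 := Int.le_of_dvd (by norm_num) h2
      have h4 : -p ≤ 2 := Int.le_of_dvd (by norm_num) ((neg_dvd).2 h2)
      have h5 : p = -2 ∨ p = -1 ∨ p = 0 ∨ p = 1 ∨ p = 2 := by omega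
      rcases h5 with h | h | h | h | h
      · rw [h] at h1
        have h6 : q = 1 := by omega
        rw [h, h6] at hSb
        apply hbodd
        rw [← hSb]
        norm_num
      · rw [h] at h1
        omega
      · rw [h] at h1
        omega
      · rw [h] at h1
        have h6 : q = 1 := by omega
        rw [h, h6] at hSb
        norm_num at hSb
        omega
      · rw [h] at h1
        omega
    · have hn5 : 5 ≤ n := by
        have h2 := hn.two_le
        have h4 : n ≠ 4 := by
          rintro rfl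
          exact absurd hn (by norm_num)
        omega
      have hn65 : n < 66 := by
        by_contra h
        push Not at h
        have h1 : ((5 : ℝ) / 4) ^ 66 ≤ x ^ n := by
          calc ((5 : ℝ) / 4) ^ 66 ≤ (5 / 4) ^ n := pow_le_pow_right₀ (by norm_num) h
            _ ≤ x ^ n := pow_le_pow_left₀ (by norm_num) hx.le n
        norm_num at h1
        linarith
      have hx19 : x < 19 := by
        by_contra h
        push Not at h
        have h1 : (19 : ℝ) ^ 5 ≤ x ^ n := by
          calc (19 : ℝ) ^ 5 ≤ 19 ^ n := pow_le_pow_right₀ (by norm_num) hn5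
            _ ≤ x ^ n := pow_le_pow_left₀ (by norm_num) h n
        norm_num at h1
        linarith
      have hqb := q_bound' (c := 19) hx hr hq (by push_cast; exact hx19.le)
      have hpb := p_bound (c := 9) hx hr hp (by norm_num) (by push_cast; linarith)
      have hall := chk_all
      rw [List.all_eq_true] at hall
      obtain ⟨Q, hQ⟩ : ∃ Q : ℕ, (Q : ℤ) = q := ⟨q.toNat, by omega⟩
      obtain ⟨P, hP⟩ : ∃ P : ℕ, (P : ℤ) - 9 = p := ⟨(p + 9).toNat, by omega⟩
      have h1 := hall Q (List.mem_range.2 (by omega))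
      rw [List.all_eq_true] at h1
      have h2 := h1 P (List.mem_range.2 (by omega))
      rw [hQ, hP] at h2
      have h3 := chk_sound p q 61 3 h2 (n - 5) (by omega)
      have h4 : 3 + 2 + (n - 5) = n := by omega
      rw [h4] at h3
      rcases h3 hSa with h5 | h5
      · omega
      · rw [hSb] at h5
        apply hbodd
        rw [h5]
        norm_num

end Pool.Agent.X4.VS
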