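import Mathlib
import Pool.Agent.X4.VS.Cnt
import Pool.Agent.X4.VS.Small
import Pool.Agent.X4.VS.Ell
import Pool.Agent.X4.VS.Fld

set_option autoImplicit false

/-! # Main theorem -/

namespace Pool.Agent.X4.VS

open NumberField Module

/-- complex cubic fields -/
theorem places {K : Type} [Field K] [NumberField K] (h3 : finrank ℚ K = 3) (φ : K →+* ℝ)
    (ψ : K →+* ℂ) (hψ : ∃ y, (ψ y).im ≠ 0) : InfinitePlace.nrComplexPlaces K = 1 := by
  have hr := rank_eq h3 φ ψ hψ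
  have h1 := InfinitePlace.card_add_two_mul_card_eq_rank K
  have h2 : Units.rank K =
      InfinitePlace.nrRealPlaces K + InfinitePlace.nrComplexPlaces K - 1 := by
    rw [← InfinitePlace.card_eq_nrRealPlaces_add_nrComplexPlaces]
    rfl
  omega

/-- **The field of a good pair.** -/
theorem of_good (k : ℕ) (h : ∃ a : ℤ, 1 ≤ a ∧ 2 * a + 3 ≤ k - 2 - a ∧
    a ^ 2 < 3 * (k - 2 - a) ∧ ¬ Data a (k - 2 - a)) :
    ∃ (K : Type) (_ : Field K) (_ : NumberField K), finrank ℚ K = 3 ∧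
      InfinitePlace.nrComplexPlaces K = 1 ∧ ell K = k := by
  obtain ⟨a, ha, hb, hab, hno⟩ := h
  obtain ⟨K, i1, i2, φ, ψ, α, l, h3, hψ, hl0, hl1, hl, hφα, hψα, hrel⟩ := exists_field ha hb hab
  refine ⟨K, i1, i2, h3, places h3 φ ψ hψ, ?_⟩
  have haR : (1 : ℝ) ≤ a := by exact_mod_cast ha
  have hbR : 2 * (a : ℝ) + 3 ≤ ((k - 2 - a : ℤ) : ℝ) := by exact_mod_cast hb
  have hl2 : l < 1 := by
    by_contra hc
    push Not at hc
    nlinarith
  exact ell_eq φ ha hb hl0 hl1 hl α hφα hrel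
    (gen_or_data h3 φ ψ hψ hl0 hl2 hl α hφα hψα hno) (by ring)

theorem small_bound {t : ℤ} (h1 : -28 ≤ t) (h2 : t ≤ 28) (h0 : t ≠ 0) (h1' : t ≠ 1) :
    7 ≤ 4 * t ^ 4 - 4 * t - 1 ∧ 4 * t ^ 4 - 4 * t - 1 ≤ 2458735 := by
  interval_cases t <;> omega

theorem large_bound {t : ℤ} (h : 29 ≤ |t|) : 2560000 < 4 * t ^ 4 - 4 * t + 2 := by
  have h1 : 841 ≤ t ^ 2 := by
    rw [← sq_abs]
    nlinarith
  have h2 : t ≤ t ^ 2 := by
    have := le_abs_self t
    rw [← sq_abs]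
    nlinarith
  have h3 : t ^ 4 = t ^ 2 * t ^ 2 := by ring
  nlinarith

/-- **Main theorem.** -/
theorem main (t : ℤ) (h0 : t ≠ 0) (h1 : t ≠ 1) :
    ∃ (K : Type) (_ : Field K) (_ : NumberField K), finrank ℚ K = 3 ∧
      InfinitePlace.nrComplexPlaces K = 1 ∧ ell K = ((4 * t ^ 4 - 4 * t + 2).toNat : ℕ∞) := by
  obtain ⟨k, hk⟩ : ∃ k : ℕ, k = (4 * t ^ 4 - 4 * t + 2).toNat := ⟨_, rfl⟩
  rw [← hk]
  by_cases ht : -28 ≤ t ∧ t ≤ 28
  · obtain ⟨b1, b2⟩ := small_bound ht.1 ht.2 h0 h1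
    have hkZ : (k : ℤ) = 4 * t ^ 4 - 4 * t + 2 := by omega
    apply of_good
    refine ⟨1, le_rfl, by omega, by omega, ?_⟩
    have hb : (k : ℤ) - 2 - 1 = 4 * t ^ 4 - 4 * t - 1 := by omega
    rw [hb]
    exact small b1 (by omega) b2
  · have h2 : 29 ≤ |t| := by
      by_contra hc
      push Not at hc
      have h3 := abs_le.1 (Int.lt_add_one_iff.1 (show |t| < 28 + 1 by linarith))
      exact ht h3
    have h3 := large_bound h2
    have hkZ : (k : ℤ) = 4 * t ^ 4 - 4 * t + 2 := by omega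
    exact of_good k (exists_good k (by omega))

end Pool.Agent.X4.VS
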